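import Pool.Agent.H674.RW.Defs

set_option autoImplicit false
noncomputable section
open Filter Topology unitInterval BoundedContinuousFunction

namespace Pool.Agent.H674.RW

/-- Job RW-3 -/
theorem analytic_step (F G F' G' : ℂ → ℂ) (hF : ∀ z, HasDerivAt F (F' z) z) (hG : ∀ z, HasDerivAt G (G' z) z)
    (m n : ℕ) (h : ∀ z, (n : ℂ) * F' z * G z = m * F z * G' z) (hF0 : ∃ z, F z ≠ 0) (hG0 : ∃ z, G z ≠ 0) :
    ∃ c : ℂ, ∀ z, (G z) ^ m = c * (F z) ^ n := by
  have hFd : Differentiable ℂ F := fun z => (hF z).differentiableAt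
  have hGd : Differentiable ℂ G := fun z => (hG z).differentiableAt
  have hFa : AnalyticOnNhd ℂ F Set.univ := fun z _ => hFd.analyticAt z
  have hGa : AnalyticOnNhd ℂ G Set.univ := fun z _ => hGd.analyticAt z
  -- a common nonzero point
  obtain ⟨z₁, hz1, hz2⟩ : ∃ z, F z ≠ 0 ∧ G z ≠ 0 := by
    by_contra hcon
    push Not at hcon
    obtain ⟨z0, hz0⟩ := hF0
    obtain ⟨w0, hw0⟩ := hG0
    have h1 : ∀ᶠ z in 𝓝 z0, F z ≠ 0 := hFd.continuous.continuousAt.eventually_ne hz0
    have h2 : G =ᶠ[𝓝 z0] fun _ => (0 : ℂ) := h1.mono fun z hz => hcon z hz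
    have h3 : G = fun _ => (0 : ℂ) :=
      hGa.eq_of_eventuallyEq (fun z _ => analyticAt_const) h2
    exact hw0 (by rw [h3])
  have e1 : ∀ᶠ z in 𝓝 z₁, F z ≠ 0 := hFd.continuous.continuousAt.eventually_ne hz1
  have e2 : ∀ᶠ z in 𝓝 z₁, G z ≠ 0 := hGd.continuous.continuousAt.eventually_ne hz2
  obtain ⟨r, hr, hball⟩ := Metric.eventually_nhds_iff_ball.1 (e1.and e2)
  -- the quotient has derivative zero on the ball
  have hder : ∀ z ∈ Metric.ball z₁ r, HasDerivAt (fun z => (G z) ^ m / (F z) ^ n) 0 z := by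
    intro z hz
    obtain ⟨hFz, hGz⟩ := hball z hz
    have h1 := ((hG z).pow m).div ((hF z).pow n) (pow_ne_zero n hFz)
    refine h1.congr_deriv ?_
    have h2 : (m : ℂ) * (G z) ^ (m - 1) * G' z * (F z) ^ n -
        (G z) ^ m * ((n : ℂ) * (F z) ^ (n - 1) * F' z) = 0 := by
      have h3 := h z
      rcases m with _ | m
      · have h4 : (n : ℂ) * F' z = 0 := by
          have h5 : (n : ℂ) * F' z * G z = 0 := by
            rw [h3]
            simp
          exact (mul_eq_zero.1 h5).resolve_right hGz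
        have h6 : (n : ℂ) * (F z) ^ (n - 1) * F' z = (F z) ^ (n - 1) * ((n : ℂ) * F' z) := by ring
        rw [h6, h4]
        simp
      · rcases n with _ | n
        · have h4 : ((m + 1 : ℕ) : ℂ) * G' z = 0 := by
            have h5 : F z * (((m + 1 : ℕ) : ℂ) * G' z) = 0 := by
              have h6 : F z * (((m + 1 : ℕ) : ℂ) * G' z) = ((m + 1 : ℕ) : ℂ) * F z * G' z := by ring
              rw [h6, ← h3]
              simp
            exact (mul_eq_zero.1 h5).resolve_left hFz
          have h6 : ((m + 1 : ℕ) : ℂ) * (G z) ^ (m + 1 - 1) * G' z =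
            (G z) ^ (m + 1 - 1) * (((m + 1 : ℕ) : ℂ) * G' z) := by ring
          rw [h6, h4]
          simp
        · simp only [Nat.add_sub_cancel]
          have h4 : ((m + 1 : ℕ) : ℂ) * (G z) ^ m * G' z * (F z) ^ (n + 1) -
              (G z) ^ (m + 1) * (((n + 1 : ℕ) : ℂ) * (F z) ^ n * F' z) =
              (G z) ^ m * (F z) ^ n * (((m + 1 : ℕ) : ℂ) * F z * G' z -
                ((n + 1 : ℕ) : ℂ) * F' z * G z) := by ring
          rw [h4, h3]
          ring
    simp only [Pi.pow_apply]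
    rw [h2, zero_div]
  have hconst : ∀ z ∈ Metric.ball z₁ r, (G z) ^ m / (F z) ^ n = (G z₁) ^ m / (F z₁) ^ n := by
    intro z hz
    refine Metric.isOpen_ball.is_const_of_deriv_eq_zero (convex_ball z₁ r).isPreconnected
      (fun w hw => (hder w hw).differentiableAt.differentiableWithinAt) (fun w hw => (hder w hw).deriv)
      hz (Metric.mem_ball_self hr)
  refine ⟨(G z₁) ^ m / (F z₁) ^ n, ?_⟩
  have h5 : (fun z => (G z) ^ m) =ᶠ[𝓝 z₁] fun z => (G z₁) ^ m / (F z₁) ^ n * (F z) ^ n := by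
    filter_upwards [Metric.ball_mem_nhds z₁ hr] with z hz
    rw [← hconst z hz, div_mul_cancel₀ _ (pow_ne_zero n (hball z hz).1)]
  have h6 : (fun z => (G z) ^ m) = fun z => (G z₁) ^ m / (F z₁) ^ n * (F z) ^ n := by
    refine AnalyticOnNhd.eq_of_eventuallyEq (𝕜 := ℂ) ?_ ?_ h5
    · exact fun z _ => (hGd.pow m).analyticAt z
    · exact fun z _ => ((hFd.pow n).const_mul _).analyticAt z
  exact fun z => congrFun h6 z

end Pool.Agent.H674.RW
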