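import Pool.Agent.H674.RW.Defs

set_option autoImplicit false
noncomputable section
open Filter Topology unitInterval BoundedContinuousFunction

namespace Pool.Agent.H674.RW

/-- Job RW-1 -/
theorem approx (u : ℝ → ℂ) (hu : Continuous u) (N ε : ℝ) (hε : 0 < ε) :
    ∃ (K : ℕ) (a : ℕ → ℂ), ∀ x ∈ Set.Icc (0 : ℝ) N,
      ‖u x - ∑ k ∈ Finset.range K, a k * Complex.exp ((k : ℂ) * x)‖ ≤ ε := by
  have hlog : ContinuousOn Real.log (Set.Icc (1 : ℝ) (Real.exp N)) := by
    refine Real.continuousOn_log.mono ?_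
    intro y hy
    have : (0:ℝ) < y := lt_of_lt_of_le one_pos hy.1
    exact this.ne'
  have hre : ContinuousOn (fun y => (u (Real.log y)).re) (Set.Icc (1 : ℝ) (Real.exp N)) :=
    (Complex.continuous_re.comp hu).comp_continuousOn hlog
  have him : ContinuousOn (fun y => (u (Real.log y)).im) (Set.Icc (1 : ℝ) (Real.exp N)) :=
    (Complex.continuous_im.comp hu).comp_continuousOn hlog
  obtain ⟨p, hp⟩ := exists_polynomial_near_of_continuousOn 1 (Real.exp N) _ hre (ε / 2) (half_pos hε)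
  obtain ⟨q, hq⟩ := exists_polynomial_near_of_continuousOn 1 (Real.exp N) _ him (ε / 2) (half_pos hε)
  refine ⟨max (p.natDegree + 1) (q.natDegree + 1),
    fun k => ((p.coeff k : ℝ) : ℂ) + ((q.coeff k : ℝ) : ℂ) * Complex.I, ?_⟩
  intro x hx
  set K := max (p.natDegree + 1) (q.natDegree + 1) with hK
  have hpK : p.natDegree < K := lt_of_lt_of_le (Nat.lt_succ_self _) (le_max_left _ _)
  have hqK : q.natDegree < K := lt_of_lt_of_le (Nat.lt_succ_self _) (le_max_right _ _)
  have hy : Real.exp x ∈ Set.Icc (1 : ℝ) (Real.exp N) :=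
    ⟨Real.one_le_exp hx.1, Real.exp_le_exp.mpr hx.2⟩
  have h1 := hp _ hy
  have h2 := hq _ hy
  simp only [Real.log_exp] at h1 h2
  have hsum : ∑ k ∈ Finset.range K, (((p.coeff k : ℝ) : ℂ) + ((q.coeff k : ℝ) : ℂ) * Complex.I) *
      Complex.exp ((k : ℂ) * x) =
      ((p.eval (Real.exp x) : ℝ) : ℂ) + ((q.eval (Real.exp x) : ℝ) : ℂ) * Complex.I := by
    rw [Polynomial.eval_eq_sum_range' hpK, Polynomial.eval_eq_sum_range' hqK]
    push_cast
    rw [Finset.sum_mul, ← Finset.sum_add_distrib]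
    refine Finset.sum_congr rfl fun k _ => ?_
    rw [Complex.exp_nat_mul]
    ring
  rw [hsum]
  refine (Complex.norm_le_abs_re_add_abs_im _).trans ?_
  have e1 : (u x - (((p.eval (Real.exp x) : ℝ) : ℂ) + ((q.eval (Real.exp x) : ℝ) : ℂ) * Complex.I)).re =
      (u x).re - p.eval (Real.exp x) := by
    simp
  have e2 : (u x - (((p.eval (Real.exp x) : ℝ) : ℂ) + ((q.eval (Real.exp x) : ℝ) : ℂ) * Complex.I)).im =
      (u x).im - q.eval (Real.exp x) := by
    simp
  rw [e1, e2, abs_sub_comm, abs_sub_comm (u x).im]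
  linarith

end Pool.Agent.H674.RW
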