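import Pool.Agent.H674.RW.Powers

set_option autoImplicit false
noncomputable section
open Filter Topology unitInterval BoundedContinuousFunction

namespace Pool.Agent.H674.RW

/-- The function `t ↦ φ (min (s + t) 1)`; if `φ 1 = 0` this is `φ (s + t)`, zero for `s + t ≥ 1`. -/
def shiftF (s : I) (φ : C(I, ℂ)) : C(I, ℂ) :=
  ⟨fun t => φ (plus s t), φ.continuous.comp (continuous_plus.comp (Continuous.prodMk_right s))⟩

/-- `L` is a complex Borel measure on `[0,1)`, as a bounded linear functional on `C_0([0,1))`, the space of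
continuous functions `φ` on `[0,1]` with `φ 1 = 0` (the values of `L` at other functions are ignored). -/
structure IsMeasure (L : C(I, ℂ) → ℂ) : Prop where
  add : ∀ φ ψ : C(I, ℂ), φ 1 = 0 → ψ 1 = 0 → L (φ + ψ) = L φ + L ψ
  smul : ∀ (c : ℂ) (φ : C(I, ℂ)), φ 1 = 0 → L (c • φ) = c * L φ
  bdd : ∃ C : ℝ, ∀ φ : C(I, ℂ), φ 1 = 0 → (∀ t, ‖φ t‖ ≤ 1) → ‖L φ‖ ≤ C

/-- The total variation norm (the norm of the functional on `C_0([0,1))`). -/
def TV (L : C(I, ℂ) → ℂ) : ℝ :=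
  sSup {x : ℝ | ∃ φ : C(I, ℂ), φ 1 = 0 ∧ (∀ t, ‖φ t‖ ≤ 1) ∧ x = ‖L φ‖}

/-- `T` is an isometric isomorphism of `ℓ¹(ω)` into `M(0,1)`: for sequences `x`, `y` in `ℓ¹(ω)` the values are
measures on `[0,1)`, `T` is linear, isometric, and `T (x * y)` is the truncated convolution product of `T x` and
`T y`, whose value at `φ` is `T x` applied to the function `ψ s = (T y) (φ (s + ·))`. -/
structure IsoInto (ω : ℕ → ℝ) (T : (ℕ → ℂ) → C(I, ℂ) → ℂ) : Prop where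
  meas : ∀ x ∈ L1 ω, IsMeasure (T x)
  add : ∀ x ∈ L1 ω, ∀ y ∈ L1 ω, ∀ φ : C(I, ℂ), φ 1 = 0 → T (x + y) φ = T x φ + T y φ
  smul : ∀ c : ℂ, ∀ x ∈ L1 ω, ∀ φ : C(I, ℂ), φ 1 = 0 → T (c • x) φ = c * T x φ
  mul : ∀ x ∈ L1 ω, ∀ y ∈ L1 ω, ∀ φ ψ : C(I, ℂ), φ 1 = 0 → (∀ s, ψ s = T y (shiftF s φ)) →
    T (fun n => ∑ j ∈ Finset.range (n + 1), x j * y (n - j)) φ = T x ψ
  norm : ∀ x ∈ L1 ω, TV (T x) = ∑' n, ‖x n‖ * ω n

theorem IsMeasure.bound {L : C(I, ℂ) → ℂ} (h : IsMeasure L) {C : ℝ}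
    (hC : ∀ φ : C(I, ℂ), φ 1 = 0 → (∀ t, ‖φ t‖ ≤ 1) → ‖L φ‖ ≤ C) (φ : E) :
    ‖L φ.1.toContinuousMap‖ ≤ C * ‖φ‖ := by
  have h1 : φ.1.toContinuousMap 1 = 0 := φ.2
  rcases eq_or_lt_of_le (norm_nonneg φ) with h0 | h0
  · have h2 : φ = 0 := norm_eq_zero.1 h0.symm
    have h3 : φ.1.toContinuousMap = (0 : ℂ) • φ.1.toContinuousMap := by
      ext t
      rw [ContinuousMap.smul_apply, zero_smul]
      show φ.1 t = 0
      rw [h2]; rfl
    rw [h3, h.smul _ _ h1, zero_mul, norm_zero, ← h0, mul_zero]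
  · have h2 := hC (((‖φ‖ : ℂ)⁻¹) • φ.1.toContinuousMap)
      (by rw [ContinuousMap.smul_apply, h1, smul_zero]) (fun t => by
        rw [ContinuousMap.smul_apply, norm_smul, norm_inv, Complex.norm_real, norm_norm]
        rw [inv_mul_le_iff₀ h0, mul_one]
        exact φ.1.norm_coe_le_norm t)
    rw [h.smul _ _ h1, norm_mul, norm_inv, Complex.norm_real, norm_norm, inv_mul_le_iff₀ h0] at h2
    rwa [mul_comm] at h2

/-- the element of the dual given by a measure -/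
def toM (L : C(I, ℂ) → ℂ) (h : IsMeasure L) : M :=
  LinearMap.mkContinuous
    { toFun := fun φ => L φ.1.toContinuousMap
      map_add' := fun φ ψ => h.add _ _ φ.2 ψ.2
      map_smul' := fun c φ => h.smul c _ φ.2 } h.bdd.choose (h.bound h.bdd.choose_spec)

theorem toM_apply (L : C(I, ℂ) → ℂ) (h : IsMeasure L) (φ : E) : toM L h φ = L φ.1.toContinuousMap := rfl

theorem norm_toM (L : C(I, ℂ) → ℂ) (h : IsMeasure L) : ‖toM L h‖ = TV L := by
  obtain ⟨C, hC⟩ := h.bdd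
  have hb : BddAbove {x : ℝ | ∃ φ : C(I, ℂ), φ 1 = 0 ∧ (∀ t, ‖φ t‖ ≤ 1) ∧ x = ‖L φ‖} :=
    ⟨C, by rintro x ⟨φ, h1, h2, rfl⟩; exact hC φ h1 h2⟩
  have hmem : ∀ φ : C(I, ℂ), φ 1 = 0 → (∀ t, ‖φ t‖ ≤ 1) → ‖L φ‖ ≤ TV L := fun φ h1 h2 =>
    le_csSup hb ⟨φ, h1, h2, rfl⟩
  apply le_antisymm
  · refine ContinuousLinearMap.opNorm_le_bound _ ?_ fun φ => h.bound hmem φ
    exact (norm_nonneg _).trans (hmem 0 rfl (fun t => by simp))
  · refine csSup_le ⟨_, 0, rfl, fun t => by simp, rfl⟩ ?_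
    rintro x ⟨φ, h1, h2, rfl⟩
    let φ' : E := ⟨BoundedContinuousFunction.mkOfCompact φ, h1⟩
    have h3 : ‖φ'‖ ≤ 1 := by
      show ‖BoundedContinuousFunction.mkOfCompact φ‖ ≤ 1
      rw [BoundedContinuousFunction.norm_le zero_le_one]
      exact h2
    have h4 := (toM L h).le_opNorm φ'
    have h5 : toM L h φ' = L φ := rfl
    rw [h5] at h4
    exact h4.trans (mul_le_of_le_one_right (norm_nonneg _) h3)

theorem powers' (ω : ℕ → ℝ) (T : (ℕ → ℂ) → C(I, ℂ) → ℂ) (hT : IsoInto ω T) :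
    ∃ P : ℕ → M, (∀ n, ‖P n‖ = ω n) ∧ ∀ m n, P (m + n) = conv (P m) (P n) := by
  refine ⟨fun n => toM (T (Pi.single n 1)) (hT.meas _ (powers_single_mem ω n)), fun n => ?_, fun m n => ?_⟩
  · rw [norm_toM, hT.norm _ (powers_single_mem ω n), tsum_eq_single n]
    · rw [Pi.single_eq_same, norm_one, one_mul]
    · intro k hk
      rw [Pi.single_eq_of_ne hk, norm_zero, zero_mul]
  · ext φ
    rw [conv_apply, toM_apply, toM_apply, ← powers_cauchy m n]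
    exact hT.mul _ (powers_single_mem ω m) _ (powers_single_mem ω n) _ _ φ.2 (fun s => rfl)

end Pool.Agent.H674.RW
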