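import Pool.Agent.H674.RW.Defs

set_option autoImplicit false
noncomputable section
open Filter Topology unitInterval BoundedContinuousFunction

namespace Pool.Agent.H674.RW

theorem ext_exists (ρ : M) : ∃ r : (I →ᵇ ℂ) →L[ℂ] ℂ, (∀ φ : E, r φ.1 = ρ φ) ∧ ‖r‖ = ‖ρ‖ :=
  exists_extension_norm_eq E ρ

theorem ex_apply (z : ℂ) (t : I) : ex z t = Complex.exp (z * (t : ℝ)) := by
  let ev : (I →ᵇ ℂ) →ₐ[ℂ] ℂ :=
    { toFun := fun f => f t
      map_one' := rfl
      map_mul' := fun _ _ => rfl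
      map_zero' := rfl
      map_add' := fun _ _ => rfl
      commutes' := fun _ => rfl }
  have hc : Continuous ev := by
    show Continuous fun f : I →ᵇ ℂ => f t
    exact continuous_eval_const t
  have h := NormedSpace.map_exp (𝔸 := I →ᵇ ℂ) ev hc (z • X)
  have h2 : ev (NormedSpace.exp (z • X)) = ex z t := rfl
  have h3 : ev (z • X) = z * (t : ℝ) := rfl
  rw [h2, h3] at h
  rw [h, Complex.exp_eq_exp_ℂ]

theorem ex_hasDeriv (r : (I →ᵇ ℂ) →L[ℂ] ℂ) (z : ℂ) : HasDerivAt (fun w => r (ex w)) (r (X * ex z)) z := by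
  have h := hasDerivAt_exp_smul_const (𝕂 := ℂ) (X : I →ᵇ ℂ) z
  have h2 := r.hasFDerivAt.comp_hasDerivAt z h
  rw [mul_comm] at h2
  exact h2

/-- one step of the comparison of the truncated action with the exponentials -/
theorem step (ρ : M) (r : (I →ᵇ ℂ) →L[ℂ] ℂ) (hr : ∀ φ : E, r φ.1 = ρ φ) (ψ : E) (K : ℕ) (b : ℕ → ℂ) (δ : ℝ)
    (x : ℝ) (hx : 0 ≤ x)
    (h : ∀ y ∈ Set.Icc x (x + 1), ‖ψ.1 (Set.projIcc 0 1 zero_le_one y) -
      ∑ k ∈ Finset.range K, b k * Complex.exp ((k : ℂ) * y)‖ ≤ δ) :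
    ‖(act ρ ψ).1 (Set.projIcc 0 1 zero_le_one x) -
      ∑ k ∈ Finset.range K, b k * r (ex k) * Complex.exp ((k : ℂ) * x)‖ ≤ ‖r‖ * δ := by
  have h0 : 0 ≤ δ := (norm_nonneg _).trans (h x ⟨le_refl _, by linarith⟩)
  have h1 : (act ρ ψ).1 (Set.projIcc 0 1 zero_le_one x) -
      ∑ k ∈ Finset.range K, b k * r (ex k) * Complex.exp ((k : ℂ) * x) =
      r ((shift (Set.projIcc 0 1 zero_le_one x) ψ).1 -
        ∑ k ∈ Finset.range K, (b k * Complex.exp ((k : ℂ) * x)) • ex k) := by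
    rw [map_sub, hr, map_sum, act_apply]
    congr 1
    refine Finset.sum_congr rfl fun k _ => ?_
    rw [map_smul, smul_eq_mul]; ring
  rw [h1]
  refine (r.le_opNorm _).trans (mul_le_mul_of_nonneg_left ?_ (norm_nonneg _))
  rw [BoundedContinuousFunction.norm_le h0]
  intro t
  have ht := h (x + t) ⟨by linarith [t.2.1], by linarith [t.2.2]⟩
  have e1 : plus (Set.projIcc 0 1 zero_le_one x) t = Set.projIcc 0 1 zero_le_one (x + t) := by
    apply Subtype.ext
    rw [plus_coe, Set.coe_projIcc, Set.coe_projIcc]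
    have h2 := t.2.1
    rw [max_eq_right, max_eq_right]
    · rcases le_total 1 x with h3 | h3
      · rw [min_eq_left h3, min_eq_right, min_eq_left] <;> linarith
      · rw [min_eq_right h3, min_comm]
    · exact le_min zero_le_one (by linarith)
    · exact le_min zero_le_one hx
  have e2 : ((shift (Set.projIcc 0 1 zero_le_one x) ψ).1 -
        ∑ k ∈ Finset.range K, (b k * Complex.exp ((k : ℂ) * x)) • ex k) t =
      ψ.1 (Set.projIcc 0 1 zero_le_one (x + t)) -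
      ∑ k ∈ Finset.range K, b k * Complex.exp ((k : ℂ) * ((x + t : ℝ) : ℂ)) := by
    rw [BoundedContinuousFunction.sub_apply, shift_apply, e1, BoundedContinuousFunction.sum_apply]
    congr 1
    refine Finset.sum_congr rfl fun k _ => ?_
    rw [BoundedContinuousFunction.smul_apply, ex_apply, smul_eq_mul, mul_assoc, ← Complex.exp_add]
    push_cast
    ring_nf
  rw [e2]
  exact ht

/-- iteration -/
theorem iter (ρ : M) (r : (I →ᵇ ℂ) →L[ℂ] ℂ) (hr : ∀ φ : E, r φ.1 = ρ φ) (K : ℕ) (a : ℕ → ℂ) (ε : ℝ)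
    (φ : E) (N : ℕ) : ∀ (x : ℝ), 0 ≤ x → (∀ y ∈ Set.Icc x (x + N), ‖φ.1 (Set.projIcc 0 1 zero_le_one y) -
      ∑ k ∈ Finset.range K, a k * Complex.exp ((k : ℂ) * y)‖ ≤ ε) →
    ‖((actL ρ ^ N) φ).1 (Set.projIcc 0 1 zero_le_one x) -
      ∑ k ∈ Finset.range K, a k * (r (ex k)) ^ N * Complex.exp ((k : ℂ) * x)‖ ≤ ‖r‖ ^ N * ε := by
  induction N with
  | zero =>
    intro x hx h
    simp only [pow_zero, mul_one, one_mul]
    exact h x ⟨le_refl _, by simp⟩
  | succ N ih =>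
    intro x hx h
    have h1 : (actL ρ ^ (N + 1)) φ = act ρ ((actL ρ ^ N) φ) := by
      rw [pow_succ']; rfl
    rw [h1]
    have h2 := step ρ r hr ((actL ρ ^ N) φ) K (fun k => a k * (r (ex k)) ^ N) (‖r‖ ^ N * ε) x hx ?_
    · have e : ‖r‖ ^ (N + 1) * ε = ‖r‖ * (‖r‖ ^ N * ε) := by ring
      have e3 : ∑ k ∈ Finset.range K, a k * (r (ex k)) ^ (N + 1) * Complex.exp ((k : ℂ) * x) =
          ∑ k ∈ Finset.range K, a k * (r (ex k)) ^ N * r (ex k) * Complex.exp ((k : ℂ) * x) :=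
        Finset.sum_congr rfl fun k _ => by ring
      rw [e, e3]
      exact h2
    · intro y hy
      refine ih y (hx.trans hy.1) fun w hw => h w ⟨hy.1.trans hw.1, ?_⟩
      have := hw.2
      have := hy.2
      push_cast
      linarith

theorem shift_zero (φ : E) : shift 0 φ = φ := by
  apply Subtype.ext; ext t
  rw [shift_apply, zero_plus]

theorem act_zero (ρ : M) (φ : E) : (act ρ φ).1 0 = ρ φ := by
  rw [act_apply, shift_zero]

theorem projIcc_zero' : Set.projIcc (0 : ℝ) 1 zero_le_one 0 = (0 : I) := by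
  apply Subtype.ext; rw [Set.coe_projIcc]; simp

/-- approximation hypothesis, used as a black box here -/
def Approx : Prop := ∀ (u : ℝ → ℂ), Continuous u → ∀ (N ε : ℝ), 0 < ε →
    ∃ (K : ℕ) (a : ℕ → ℂ), ∀ x ∈ Set.Icc (0 : ℝ) N,
      ‖u x - ∑ k ∈ Finset.range K, a k * Complex.exp ((k : ℂ) * x)‖ ≤ ε

theorem continuous_ext (φ : E) : Continuous fun y : ℝ => φ.1 (Set.projIcc 0 1 zero_le_one y) :=
  φ.1.continuous.comp continuous_projIcc

theorem shift_act (ν : M) (s : I) (φ : E) : shift s (act ν φ) = act ν (shift s φ) := by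
  apply Subtype.ext; ext t
  rw [shift_apply, act_apply, act_apply]
  congr 1
  apply Subtype.ext; ext u
  rw [shift_apply, shift_apply, shift_apply, plus_assoc]

theorem actL_conv (μ ν : M) : actL (conv μ ν) = actL μ * actL ν := by
  ext φ t
  show (act (conv μ ν) φ).1 t = (act μ (act ν φ)).1 t
  rw [act_apply, act_apply, conv_apply, shift_act]

theorem conv_comm (hA : Approx) (μ ν : M) : conv μ ν = conv ν μ := by
  obtain ⟨r, hr, -⟩ := ext_exists μ
  obtain ⟨q, hq, -⟩ := ext_exists ν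
  ext φ
  have key : ∀ ε : ℝ, 0 < ε → ‖conv μ ν φ - conv ν μ φ‖ ≤ 2 * (‖r‖ * ‖q‖) * ε := by
    intro ε hε
    obtain ⟨K, a, ha⟩ := hA _ (continuous_ext φ) 2 ε hε
    have h1 : ∀ x ∈ Set.Icc (0 : ℝ) 1, ‖(act ν φ).1 (Set.projIcc 0 1 zero_le_one x) -
      ∑ k ∈ Finset.range K, a k * q (ex k) * Complex.exp ((k : ℂ) * x)‖ ≤ ‖q‖ * ε := fun x hx =>
      step ν q hq φ K a ε x hx.1 fun y hy => ha y ⟨hx.1.trans hy.1, by linarith [hy.2, hx.2]⟩
    have h1' : ∀ x ∈ Set.Icc (0 : ℝ) 1, ‖(act μ φ).1 (Set.projIcc 0 1 zero_le_one x) -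
      ∑ k ∈ Finset.range K, a k * r (ex k) * Complex.exp ((k : ℂ) * x)‖ ≤ ‖r‖ * ε := fun x hx =>
      step μ r hr φ K a ε x hx.1 fun y hy => ha y ⟨hx.1.trans hy.1, by linarith [hy.2, hx.2]⟩
    have h2 := step μ r hr (act ν φ) K (fun k => a k * q (ex k)) (‖q‖ * ε) 0 le_rfl
      (fun y hy => h1 y (by simpa using hy))
    have h2' := step ν q hq (act μ φ) K (fun k => a k * r (ex k)) (‖r‖ * ε) 0 le_rfl
      (fun y hy => h1' y (by simpa using hy))
    rw [projIcc_zero', act_zero] at h2 h2'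
    rw [conv_apply, conv_apply]
    have e : ∑ k ∈ Finset.range K, a k * q (ex k) * r (ex k) * Complex.exp ((k : ℂ) * ((0 : ℝ) : ℂ)) =
        ∑ k ∈ Finset.range K, a k * r (ex k) * q (ex k) * Complex.exp ((k : ℂ) * ((0 : ℝ) : ℂ)) :=
      Finset.sum_congr rfl fun k _ => by ring
    rw [e] at h2
    calc ‖μ (act ν φ) - ν (act μ φ)‖ = ‖(μ (act ν φ) - ∑ k ∈ Finset.range K,
          a k * r (ex k) * q (ex k) * Complex.exp ((k : ℂ) * ((0 : ℝ) : ℂ))) - (ν (act μ φ) -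
          ∑ k ∈ Finset.range K, a k * r (ex k) * q (ex k) * Complex.exp ((k : ℂ) * ((0 : ℝ) : ℂ)))‖ := by
            congr 1; ring
      _ ≤ ‖r‖ * (‖q‖ * ε) + ‖q‖ * (‖r‖ * ε) := (norm_sub_le _ _).trans (add_le_add h2 h2')
      _ = 2 * (‖r‖ * ‖q‖) * ε := by ring
  have h3 : ‖conv μ ν φ - conv ν μ φ‖ ≤ 0 := by
    refine le_of_forall_pos_le_add fun δ hδ => ?_
    have h4 := key (δ / (2 * (‖r‖ * ‖q‖) + 1)) (by positivity)
    refine h4.trans ?_
    rw [zero_add, mul_div_assoc', div_le_iff₀ (by positivity)]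
    nlinarith [mul_nonneg (norm_nonneg r) (norm_nonneg q)]
  exact sub_eq_zero.1 (norm_eq_zero.1 (le_antisymm h3 (norm_nonneg _)))

theorem Q_shift (s : I) (φ : E) : Q (shift s φ) = shift s (Q φ) - ((s : ℝ) : ℂ) • shift s φ := by
  apply Subtype.ext; ext t
  show (Q (shift s φ)).1 t = (shift s (Q φ)).1 t - ((s : ℝ) : ℂ) * (shift s φ).1 t
  rw [Q_apply, shift_apply, shift_apply, Q_apply]
  rcases le_total ((s : ℝ) + t) 1 with h | h
  · rw [plus_coe, min_eq_left h]; push_cast; ring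
  · have : plus s t = 1 := by
      apply Subtype.ext; rw [plus_coe, min_eq_right h]; rfl
    rw [this]
    have h1 : φ.1 1 = 0 := φ.2
    rw [h1]; simp

theorem act_comp_Q (μ : M) : actL (μ.comp Q) = actL μ * Q - Q * actL μ := by
  ext φ t
  show (act (μ.comp Q) φ).1 t = (act μ (Q φ)).1 t - (Q (act μ φ)).1 t
  rw [act_apply, act_apply, Q_apply, act_apply]
  show μ (Q (shift t φ)) = _
  rw [Q_shift, map_sub, map_smul, smul_eq_mul]

theorem ring_id {R : Type*} [Ring R] (A B : R) (h : Commute A (A * B - B * A)) (n : ℕ) :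
    A ^ n * B - B * A ^ n = (n : R) * ((A * B - B * A) * A ^ (n - 1)) := by
  induction n with
  | zero => simp
  | succ n ih =>
    have h1 : A ^ (n + 1) * B - B * A ^ (n + 1) =
        A * (A ^ n * B - B * A ^ n) + (A * B - B * A) * A ^ n := by
      rw [pow_succ' A n]; noncomm_ring
    rw [h1, ih]
    rcases Nat.eq_zero_or_pos n with h0 | h0
    · subst h0; simp
    · have h2 : A ^ n = A * A ^ (n - 1) := by rw [← pow_succ']; congr 1; omega
      have h3 : A * ((n : R) * ((A * B - B * A) * A ^ (n - 1))) = (n : R) * ((A * B - B * A) * (A * A ^ (n - 1))) := by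
        rw [← mul_assoc A (n : R), ← Nat.cast_comm n A, mul_assoc, ← mul_assoc A (A * B - B * A), h.eq, mul_assoc]
      rw [h3, ← h2, Nat.add_sub_cancel]
      push_cast
      rw [add_mul, one_mul]

theorem ring_id2 {R : Type*} [Ring R] (A B : R) (h : Commute A (A * B - B * A)) (m n : ℕ) :
    n • ((A ^ m * B - B * A ^ m) * A ^ n) = m • (A ^ m * (A ^ n * B - B * A ^ n)) := by
  rw [ring_id A B h m, ring_id A B h n, nsmul_eq_mul, nsmul_eq_mul]
  rcases Nat.eq_zero_or_pos m with h0 | h0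
  · subst h0; simp
  rcases Nat.eq_zero_or_pos n with h0' | h0'
  · subst h0'; simp
  set C := A * B - B * A with hC
  have hcm : A ^ m * C = C * A ^ m := (h.pow_left m).eq
  have p1 : C * A ^ (m - 1) * A ^ n = C * A ^ (m + n - 1) := by
    rw [mul_assoc, ← pow_add]; congr 2; omega
  have p2 : C * A ^ m * A ^ (n - 1) = C * A ^ (m + n - 1) := by
    rw [mul_assoc, ← pow_add]; congr 2; omega
  rw [mul_assoc (m : R), p1, ← mul_assoc (A ^ m) (n : R), ← Nat.cast_comm n (A ^ m), mul_assoc (n : R) (A ^ m),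
    ← mul_assoc (A ^ m) C, hcm, p2, ← mul_assoc, ← mul_assoc, Nat.cast_comm]
  simp only [mul_assoc]

theorem eval_nsmul (k : ℕ) (L : E →L[ℂ] E) (ψ : E) : (((k • L) ψ).1 : I →ᵇ ℂ) 0 = (k : ℂ) * (L ψ).1 0 := by
  have : (k • L) ψ = (k : ℂ) • (L ψ) := by
    rw [Nat.cast_smul_eq_nsmul]; rfl
  rw [this]; rfl

theorem trunc_identity (hA : Approx) (μ ρ τ : M) (m n : ℕ) (hρ : actL ρ = actL μ ^ m) (hτ : actL τ = actL μ ^ n)
    (φ : E) : (n : ℂ) * ρ (Q (act τ φ)) = m * ρ (act τ (Q φ) - Q (act τ φ)) := by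
  have hc : Commute (actL μ) (actL μ * Q - Q * actL μ) := by
    rw [← act_comp_Q]
    show _ * _ = _ * _
    rw [← actL_conv, ← actL_conv, conv_comm hA]
  have h1 := ring_id2 (actL μ) Q hc m n
  rw [← hρ, ← hτ] at h1
  -- evaluation at 0
  have e1 : ρ (Q (act τ φ)) = (((actL ρ * Q - Q * actL ρ) * actL τ) φ).1 0 := by
    show ρ (Q (act τ φ)) = (act ρ (Q (act τ φ))).1 0 - (Q (act ρ (act τ φ))).1 0
    rw [act_zero, Q_apply]; simp
  have e2 : ρ (act τ (Q φ) - Q (act τ φ)) = ((actL ρ * (actL τ * Q - Q * actL τ)) φ).1 0 := by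
    show _ = (act ρ (act τ (Q φ) - Q (act τ φ))).1 0
    rw [act_zero]
  rw [e1, e2, ← eval_nsmul, ← eval_nsmul, h1]

end Pool.Agent.H674.RW
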