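import Mathlib

set_option autoImplicit false
noncomputable section
open Filter Topology unitInterval BoundedContinuousFunction

namespace Pool.Agent.H674.RW

/-- Truncated addition `min (s + t) 1` on `[0,1]`. -/
def plus (s t : I) : I := ⟨min ((s : ℝ) + t) 1, le_min (add_nonneg s.2.1 t.2.1) zero_le_one, min_le_right _ _⟩

theorem plus_coe (s t : I) : ((plus s t : I) : ℝ) = min ((s : ℝ) + t) 1 := rfl

theorem continuous_plus : Continuous fun p : I × I => plus p.1 p.2 := by
  unfold plus
  fun_prop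

theorem plus_comm (s t : I) : plus s t = plus t s := by
  apply Subtype.ext; simp only [plus_coe, add_comm]

theorem plus_assoc (s t u : I) : plus (plus s t) u = plus s (plus t u) := by
  apply Subtype.ext
  have h1 := s.2.1
  have h2 := u.2.1
  have h3 := t.2.1
  rw [plus_coe, plus_coe, plus_coe, plus_coe]
  rcases le_total ((s : ℝ) + t) 1 with h | h <;> rcases le_total ((t : ℝ) + u) 1 with h' | h'
  · rw [min_eq_left h, min_eq_left h', add_assoc]
  · rw [min_eq_left h, min_eq_right h', min_eq_right, min_eq_right] <;> linarith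
  · rw [min_eq_right h, min_eq_left h', min_eq_right, min_eq_right] <;> linarith
  · rw [min_eq_right h, min_eq_right h', min_eq_right, min_eq_right] <;> linarith

theorem one_plus (t : I) : plus 1 t = 1 := by
  apply Subtype.ext
  have := t.2.1
  show min ((1 : ℝ) + t) 1 = 1
  rw [min_eq_right]; linarith

theorem plus_one (t : I) : plus t 1 = 1 := by rw [plus_comm, one_plus]

theorem zero_plus (t : I) : plus 0 t = t := by
  apply Subtype.ext
  have := t.2.2
  show min ((0 : ℝ) + t) 1 = t
  rw [zero_add, min_eq_left this]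

/-- `C_0([0,1))`: the continuous functions on `[0,1]` that vanish at `1`, with the supremum norm. -/
def E : Submodule ℂ (I →ᵇ ℂ) where
  carrier := {φ | φ 1 = 0}
  add_mem' := by
    intro a b ha hb
    simp only [Set.mem_ofPred_eq, BoundedContinuousFunction.add_apply] at *
    rw [ha, hb, add_zero]
  zero_mem' := rfl
  smul_mem' := by
    intro c a ha
    simp only [Set.mem_ofPred_eq, BoundedContinuousFunction.smul_apply] at *
    rw [ha, smul_zero]

/-- `M(0,1)`, the complex Borel measures on `[0,1)` with the total variation norm, as the dual of `C_0([0,1))`. -/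
abbrev M := E →L[ℂ] ℂ

/-- The function `t ↦ φ (s + t)` (zero for `s + t ≥ 1`). -/
def shift (s : I) (φ : E) : E :=
  ⟨φ.1.compContinuous ⟨fun t => plus s t, continuous_plus.comp (Continuous.prodMk_right s)⟩, by
    show φ.1 (plus s 1) = 0
    rw [plus_one]; exact φ.2⟩

theorem shift_apply (s : I) (φ : E) (t : I) : (shift s φ).1 t = φ.1 (plus s t) := rfl

theorem continuous_shift (φ : E) : Continuous fun s => shift s φ := by
  apply Continuous.subtype_mk
  exact (ContinuousMap.isometryEquivBoundedOfCompact I ℂ).continuous.comp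
    (ContinuousMap.curry ⟨fun p : I × I => φ.1 (plus p.1 p.2),
      φ.1.continuous.comp continuous_plus⟩).continuous

theorem norm_shift_le (s : I) (φ : E) : ‖shift s φ‖ ≤ ‖φ‖ := by
  show ‖(shift s φ).1‖ ≤ ‖φ.1‖
  rw [BoundedContinuousFunction.norm_le (norm_nonneg _)]
  intro t
  exact φ.1.norm_coe_le_norm _

/-- The function `s ↦ ν (φ (s + ·))`. -/
def act (ν : M) (φ : E) : E :=
  ⟨BoundedContinuousFunction.mkOfCompact ⟨fun s => ν (shift s φ), ν.continuous.comp (continuous_shift φ)⟩, by
    show ν (shift 1 φ) = 0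
    have : shift 1 φ = 0 := by
      apply Subtype.ext; ext t
      show φ.1 (plus 1 t) = 0
      rw [one_plus]; exact φ.2
    rw [this, map_zero]⟩

theorem act_apply (ν : M) (φ : E) (s : I) : (act ν φ).1 s = ν (shift s φ) := rfl

theorem shift_add (s : I) (φ ψ : E) : shift s (φ + ψ) = shift s φ + shift s ψ := rfl
theorem shift_smul (s : I) (c : ℂ) (φ : E) : shift s (c • φ) = c • shift s φ := rfl

theorem norm_act_le (ν : M) (φ : E) : ‖act ν φ‖ ≤ ‖ν‖ * ‖φ‖ := by
  show ‖(act ν φ).1‖ ≤ _
  rw [BoundedContinuousFunction.norm_le (by positivity)]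
  intro s
  exact (ν.le_opNorm _).trans (mul_le_mul_of_nonneg_left (norm_shift_le s φ) (norm_nonneg _))

/-- `act ν` as an operator on `C_0([0,1))`. -/
def actL (ν : M) : E →L[ℂ] E :=
  LinearMap.mkContinuous
    { toFun := act ν
      map_add' := by
        intro a b; apply Subtype.ext; ext s
        show ν (shift s (a + b)) = ν (shift s a) + ν (shift s b)
        rw [shift_add, map_add]
      map_smul' := by
        intro c a; apply Subtype.ext; ext s
        show ν (shift s (c • a)) = c • ν (shift s a)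
        rw [shift_smul, map_smul] }
    ‖ν‖ (fun φ => norm_act_le ν φ)

theorem actL_apply (ν : M) (φ : E) : actL ν φ = act ν φ := rfl

/-- The (truncated) convolution product of `M(0,1)`: `(μ * ν)(φ) = ∫∫ φ(s+t) dν(t) dμ(s)`. -/
def conv (μ ν : M) : M := μ.comp (actL ν)

theorem conv_apply (μ ν : M) (φ : E) : conv μ ν φ = μ (act ν φ) := rfl

/-- A radical weight sequence. -/
structure RadicalWeight (ω : ℕ → ℝ) : Prop where
  pos : ∀ n, 0 < ω n
  zero : ω 0 = 1
  mul : ∀ m n, ω (m + n) ≤ ω m * ω n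
  rad : Tendsto (fun n : ℕ => (ω n) ^ (1 / (n : ℝ))) atTop (𝓝 0)

/-- The sequences that belong to `ℓ¹(ω)`. -/
def L1 (ω : ℕ → ℝ) : Set (ℕ → ℂ) := {x | Summable fun n => ‖x n‖ * ω n}

/-- `T` is an isometric isomorphism of `ℓ¹(ω)` into `M(0,1)`. -/
structure IsometricIso (ω : ℕ → ℝ) (T : (ℕ → ℂ) → M) : Prop where
  add : ∀ x ∈ L1 ω, ∀ y ∈ L1 ω, T (x + y) = T x + T y
  smul : ∀ c : ℂ, ∀ x ∈ L1 ω, T (c • x) = c • T x
  mul : ∀ x ∈ L1 ω, ∀ y ∈ L1 ω,
    T (fun n => ∑ j ∈ Finset.range (n + 1), x j * y (n - j)) = conv (T x) (T y)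
  norm : ∀ x ∈ L1 ω, ‖T x‖ = ∑' n, ‖x n‖ * ω n

/-- the coordinate function on `[0,1]` -/
def X : I →ᵇ ℂ := BoundedContinuousFunction.mkOfCompact ⟨fun t => ((t : ℝ) : ℂ), by fun_prop⟩

theorem X_apply (t : I) : X t = ((t : ℝ) : ℂ) := rfl

/-- the exponential `t ↦ exp (z t)` -/
def ex (z : ℂ) : I →ᵇ ℂ := NormedSpace.exp (z • X)

/-- multiplication by the coordinate on `C_0([0,1))` -/
def Q : E →L[ℂ] E :=
  LinearMap.mkContinuous
    { toFun := fun φ => ⟨X * φ.1, by show X 1 * φ.1 1 = 0; rw [φ.2, mul_zero]⟩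
      map_add' := by intro a b; apply Subtype.ext; exact mul_add X a.1 b.1
      map_smul' := by intro c a; apply Subtype.ext; exact mul_smul_comm c X a.1 } ‖X‖
    (fun φ => norm_mul_le X φ.1)

theorem Q_apply (φ : E) (t : I) : (Q φ).1 t = ((t : ℝ) : ℂ) * φ.1 t := rfl

end Pool.Agent.H674.RW
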