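import Pool.Agent.H674.RW.Defs

set_option autoImplicit false
noncomputable section
open Filter Topology unitInterval BoundedContinuousFunction

namespace Pool.Agent.H674.RW

theorem ex_aux_mul (m n : ℕ) : (m / 2) ^ 2 + (n / 2) ^ 2 ≤ ((m + n) / 2) ^ 2 := by
  have h1 : m / 2 + n / 2 ≤ (m + n) / 2 := by omega
  calc (m / 2) ^ 2 + (n / 2) ^ 2 ≤ (m / 2 + n / 2) ^ 2 := by nlinarith [Nat.zero_le (m / 2 * (n / 2))]
    _ ≤ ((m + n) / 2) ^ 2 := Nat.pow_le_pow_left h1 2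

theorem ex_aux_rad : Tendsto (fun n : ℕ => ((1 / 2 : ℝ) ^ ((n / 2) ^ 2)) ^ (1 / (n : ℝ))) atTop (𝓝 0) := by
  have hlim : Tendsto (fun n : ℕ => (1 / 2 : ℝ) ^ (((n : ℝ) - 2) / 4)) atTop (𝓝 0) := by
    have h1 : Tendsto (fun n : ℕ => ((n : ℝ) - 2) / 4) atTop atTop := by
      refine Tendsto.atTop_div_const (by norm_num) ?_
      exact tendsto_atTop_add_const_right _ (-2) tendsto_natCast_atTop_atTop
    exact (tendsto_rpow_atTop_of_base_lt_one (1 / 2) (by norm_num) (by norm_num)).comp h1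
  refine squeeze_zero' (Eventually.of_forall fun n => ?_) ?_ hlim
  · positivity
  · filter_upwards [eventually_ge_atTop 1] with n hn
    have hn' : (1 : ℝ) ≤ n := by exact_mod_cast hn
    rw [← Real.rpow_natCast, ← Real.rpow_mul (by norm_num)]
    refine Real.rpow_le_rpow_of_exponent_ge (by norm_num) (by norm_num) ?_
    have hk : (n : ℝ) - 1 ≤ 2 * ((n / 2 : ℕ) : ℝ) := by
      have : n ≤ 2 * (n / 2) + 1 := by omega
      have h2 : (n : ℝ) ≤ 2 * ((n / 2 : ℕ) : ℝ) + 1 := by exact_mod_cast this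
      linarith
    push_cast
    rw [mul_one_div, div_le_div_iff₀ (by norm_num) (by linarith)]
    have h3 : ((n : ℝ) - 1) ^ 2 ≤ (2 * ((n / 2 : ℕ) : ℝ)) ^ 2 := by
      apply pow_le_pow_left₀ (by linarith) hk
    nlinarith

/-- Job RW-5 -/
theorem example_weight : RadicalWeight (fun n => (1 / 2 : ℝ) ^ ((n / 2) ^ 2)) ∧
    {n : ℕ | (1 / 2 : ℝ) ^ (((1 + n) / 2) ^ 2) = (1 / 2 : ℝ) ^ ((1 / 2) ^ 2) * (1 / 2 : ℝ) ^ ((n / 2) ^ 2)}.Infinite := by
  refine ⟨⟨fun n => by positivity, by simp, fun m n => ?_, ex_aux_rad⟩, ?_⟩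
  · show (1 / 2 : ℝ) ^ (((m + n) / 2) ^ 2) ≤ (1 / 2 : ℝ) ^ ((m / 2) ^ 2) * (1 / 2 : ℝ) ^ ((n / 2) ^ 2)
    rw [← pow_add]
    exact pow_le_pow_of_le_one (by norm_num) (by norm_num) (ex_aux_mul m n)
  · refine Set.infinite_of_injective_forall_mem (f := fun k : ℕ => 2 * k) ?_ fun k => ?_
    · intro a b h
      have h' : 2 * a = 2 * b := h
      omega
    · have h1 : (1 + 2 * k) / 2 = k := by omega
      have h2 : 2 * k / 2 = k := by omega
      show (1 / 2 : ℝ) ^ (((1 + 2 * k) / 2) ^ 2) = (1 / 2 : ℝ) ^ ((1 / 2) ^ 2) * (1 / 2 : ℝ) ^ ((2 * k / 2) ^ 2)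
      rw [h1, h2]
      norm_num

end Pool.Agent.H674.RW
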