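import Pool.Agent.H674.RW.Defs

set_option autoImplicit false
open Filter Topology

namespace Pool.Agent.H674.RW

theorem limit_step (ω : ℕ → ℝ) (hω : RadicalWeight ω) (S : Set ℕ) (hS : S.Infinite) (m : ℕ) (a b : ℝ)
    (ha : 0 ≤ a) (h : ∀ n ∈ S, a ^ n ≤ (ω n * b) ^ m) (hm : 1 ≤ m) (hb : 0 ≤ b) : a = 0 := by
  by_contra ha0
  have ha' : 0 < a := lt_of_le_of_ne ha (Ne.symm ha0)
  have hB : 0 < max b 1 := lt_of_lt_of_le one_pos (le_max_right _ _)
  have hδ : 0 < min 1 a / 2 := by positivity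
  have h1 := hω.rad.eventually (gt_mem_nhds (show (0 : ℝ) < (min 1 a / 2) / max b 1 by positivity))
  obtain ⟨N, hN⟩ := eventually_atTop.1 h1
  obtain ⟨n, hnS, hn⟩ := hS.exists_gt (max N 1)
  have hn1 : 1 ≤ n := (le_max_right N 1).trans hn.le
  have h2 := hN n ((le_max_left N 1).trans hn.le)
  have hω0 := (hω.pos n).le
  have h3 : ω n = ((ω n) ^ (1 / (n : ℝ))) ^ n := by
    rw [one_div, Real.rpow_inv_natCast_pow hω0 (by omega)]
  have h4 : ω n * b ≤ (min 1 a / 2) ^ n := by
    calc ω n * b ≤ ω n * (max b 1) ^ n := by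
          refine mul_le_mul_of_nonneg_left ?_ hω0
          calc b ≤ max b 1 := le_max_left _ _
            _ ≤ (max b 1) ^ n := le_self_pow₀ (le_max_right _ _) (by omega)
      _ = ((ω n) ^ (1 / (n : ℝ)) * max b 1) ^ n := by rw [mul_pow, ← h3]
      _ ≤ (min 1 a / 2) ^ n := by
          refine pow_le_pow_left₀ (by positivity) ?_ n
          rw [lt_div_iff₀ hB] at h2
          exact h2.le
  have h5 : (ω n * b) ^ m ≤ (min 1 a / 2) ^ n := by
    have h6 : (min 1 a / 2) ^ n ≤ 1 := by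
      refine pow_le_one₀ hδ.le ?_
      have := min_le_left 1 a
      linarith
    calc (ω n * b) ^ m ≤ ((min 1 a / 2) ^ n) ^ m := pow_le_pow_left₀ (by positivity) h4 m
      _ ≤ (min 1 a / 2) ^ n := pow_le_of_le_one (by positivity) h6 (by omega)
  have h7 : (min 1 a / 2) ^ n < a ^ n := by
    refine pow_lt_pow_left₀ ?_ hδ.le (by omega)
    have := min_le_right 1 a
    linarith
  exact absurd ((h n hnS).trans h5) (not_le.2 h7)

end Pool.Agent.H674.RW
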