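import Pool.Agent.H674.RW.Core

set_option autoImplicit false
noncomputable section
open Filter Topology unitInterval BoundedContinuousFunction

namespace Pool.Agent.H674.RW

theorem nonvanish (hA : Approx) (ρ : M) (r : (I →ᵇ ℂ) →L[ℂ] ℂ) (hr : ∀ φ : E, r φ.1 = ρ φ) (h : ρ ≠ 0) :
    ∃ k : ℕ, r (ex k) ≠ 0 := by
  by_contra hcon
  push Not at hcon
  apply h
  ext φ
  show ρ φ = 0
  have key : ∀ ε : ℝ, 0 < ε → ‖ρ φ‖ ≤ ‖r‖ * ε := by
    intro ε hε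
    obtain ⟨K, a, ha⟩ := hA _ (continuous_ext φ) 1 ε hε
    have e : ρ φ = r (φ.1 - ∑ k ∈ Finset.range K, a k • ex k) := by
      rw [map_sub, hr, map_sum]
      have : ∑ k ∈ Finset.range K, r (a k • ex k) = 0 :=
        Finset.sum_eq_zero fun k _ => by rw [map_smul, hcon k, smul_zero]
      rw [this, sub_zero]
    rw [e]
    refine (r.le_opNorm _).trans (mul_le_mul_of_nonneg_left ?_ (norm_nonneg _))
    rw [BoundedContinuousFunction.norm_le hε.le]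
    intro t
    have h1 := ha t ⟨t.2.1, t.2.2⟩
    rw [Set.projIcc_val] at h1
    rw [BoundedContinuousFunction.sub_apply, BoundedContinuousFunction.sum_apply]
    refine le_trans (le_of_eq ?_) h1
    congr 2
    refine Finset.sum_congr rfl fun k _ => ?_
    rw [BoundedContinuousFunction.smul_apply, ex_apply, smul_eq_mul]
  have h3 : ‖ρ φ‖ ≤ 0 := by
    refine le_of_forall_pos_le_add fun δ hδ => ?_
    have h4 := key (δ / (‖r‖ + 1)) (by positivity)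
    refine h4.trans ?_
    rw [zero_add, mul_div_assoc', div_le_iff₀ (by positivity)]
    nlinarith [norm_nonneg r]
  exact norm_eq_zero.1 (le_antisymm h3 (norm_nonneg _))

theorem const_one (hA : Approx) (μ ρ τ π : M) (m n : ℕ) (hρ : actL ρ = actL μ ^ m) (hτ : actL τ = actL μ ^ n)
    (hπ : actL π = actL μ ^ (m * n)) (hπ0 : π ≠ 0)
    (r q : (I →ᵇ ℂ) →L[ℂ] ℂ) (hr : ∀ φ : E, r φ.1 = ρ φ) (hq : ∀ φ : E, q φ.1 = τ φ) (c : ℂ)
    (h : ∀ z, (q (ex z)) ^ m = c * (r (ex z)) ^ n) : c = 1 := by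
  by_contra hc
  apply hπ0
  ext φ
  show π φ = 0
  have key : ∀ ε : ℝ, 0 < ε → ‖(1 - c) * π φ‖ ≤ (‖q‖ ^ m + ‖c‖ * ‖r‖ ^ n) * ε := by
    intro ε hε
    obtain ⟨K, a, ha⟩ := hA _ (continuous_ext φ) ((m : ℝ) + n) ε hε
    have h1 := iter τ q hq K a ε φ m 0 le_rfl
      (fun y hy => ha y ⟨hy.1, by have := hy.2; have := Nat.cast_nonneg (α := ℝ) n; linarith⟩)
    have h2 := iter ρ r hr K a ε φ n 0 le_rfl
      (fun y hy => ha y ⟨hy.1, by have := hy.2; have := Nat.cast_nonneg (α := ℝ) m; linarith⟩)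
    rw [hτ, ← pow_mul, mul_comm n m, ← hπ, projIcc_zero'] at h1
    rw [hρ, ← pow_mul, ← hπ, projIcc_zero'] at h2
    have e0 : ((actL π) φ).1 0 = π φ := act_zero π φ
    rw [e0] at h1 h2
    have e1 : ∑ k ∈ Finset.range K, a k * (q (ex k)) ^ m * Complex.exp ((k : ℂ) * ((0 : ℝ) : ℂ)) =
        c * ∑ k ∈ Finset.range K, a k * (r (ex k)) ^ n * Complex.exp ((k : ℂ) * ((0 : ℝ) : ℂ)) := by
      rw [Finset.mul_sum]
      refine Finset.sum_congr rfl fun k _ => ?_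
      rw [h]; ring
    rw [e1] at h1
    set s := ∑ k ∈ Finset.range K, a k * (r (ex k)) ^ n * Complex.exp ((k : ℂ) * ((0 : ℝ) : ℂ)) with hs
    calc ‖(1 - c) * π φ‖ = ‖(π φ - c * s) - c * (π φ - s)‖ := by congr 1; ring
      _ ≤ ‖q‖ ^ m * ε + ‖c‖ * (‖r‖ ^ n * ε) := by
          refine (norm_sub_le _ _).trans (add_le_add h1 ?_)
          rw [norm_mul]
          exact mul_le_mul_of_nonneg_left h2 (norm_nonneg _)
      _ = _ := by ring
  have h3 : ‖(1 - c) * π φ‖ ≤ 0 := by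
    refine le_of_forall_pos_le_add fun δ hδ => ?_
    have h4 := key (δ / (‖q‖ ^ m + ‖c‖ * ‖r‖ ^ n + 1)) (by positivity)
    refine h4.trans ?_
    rw [zero_add, mul_div_assoc', div_le_iff₀ (by positivity)]
    have : 0 ≤ ‖q‖ ^ m + ‖c‖ * ‖r‖ ^ n := by positivity
    nlinarith
  have h5 := norm_eq_zero.1 (le_antisymm h3 (norm_nonneg _))
  rcases mul_eq_zero.1 h5 with h6 | h6
  · exact absurd (sub_eq_zero.1 h6).symm hc
  · exact h6

theorem norm_ex_le (k : ℕ) : ‖ex k‖ ≤ Real.exp k := by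
  rw [BoundedContinuousFunction.norm_le (Real.exp_pos _).le]
  intro t
  rw [ex_apply, Complex.norm_exp]
  apply Real.exp_le_exp.2
  have : ((k : ℂ) * ((t : ℝ) : ℂ)).re = k * (t : ℝ) := by simp
  rw [this]
  exact mul_le_of_le_one_right (Nat.cast_nonneg k) t.2.2

theorem actL_pow (P : ℕ → M) (hP : ∀ m n, P (m + n) = conv (P m) (P n)) (n : ℕ) (hn : 1 ≤ n) :
    actL (P n) = actL (P 1) ^ n := by
  induction n, hn using Nat.le_induction with
  | base => rw [pow_one]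
  | succ n hn ih => rw [hP, actL_conv, ih, pow_succ]

/-- the hypotheses that are proved in the other files -/
structure Tools : Prop where
  approx : Approx
  wronskian : ∀ (ρ τ : M) (r q : (I →ᵇ ℂ) →L[ℂ] ℂ) (_ : ∀ φ : E, r φ.1 = ρ φ) (_ : ∀ φ : E, q φ.1 = τ φ)
    (_ : ‖r‖ = ‖ρ‖) (_ : ‖q‖ = ‖τ‖) (m n : ℕ)
    (_ : ∀ φ : E, (n : ℂ) * ρ (Q (act τ φ)) = m * ρ (act τ (Q φ) - Q (act τ φ)))
    (_ : ∀ (z : ℂ) (t : I), ex z t = Complex.exp (z * (t : ℝ)))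
    (_ : ‖conv ρ τ‖ = ‖ρ‖ * ‖τ‖) (z : ℂ),
    (n : ℂ) * r (X * ex z) * q (ex z) = m * r (ex z) * q (X * ex z)
  analytic : ∀ (F G F' G' : ℂ → ℂ) (_ : ∀ z, HasDerivAt F (F' z) z) (_ : ∀ z, HasDerivAt G (G' z) z)
    (m n : ℕ) (_ : ∀ z, (n : ℂ) * F' z * G z = m * F z * G' z) (_ : ∃ z, F z ≠ 0) (_ : ∃ z, G z ≠ 0),
    ∃ c : ℂ, ∀ z, (G z) ^ m = c * (F z) ^ n
  limit : ∀ (ω : ℕ → ℝ) (_ : RadicalWeight ω) (S : Set ℕ) (_ : S.Infinite) (m : ℕ) (a b : ℝ)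
    (_ : 0 ≤ a) (_ : ∀ n ∈ S, a ^ n ≤ (ω n * b) ^ m) (_ : 1 ≤ m) (_ : 0 ≤ b), a = 0

theorem finite_of_tools (hT : Tools) (ω : ℕ → ℝ) (hω : RadicalWeight ω) (P : ℕ → M) (hPn : ∀ n, ‖P n‖ = ω n)
    (hP : ∀ m n, P (m + n) = conv (P m) (P n)) (m : ℕ) (hm : 1 ≤ m) :
    {n : ℕ | ω (m + n) = ω m * ω n}.Finite := by
  by_contra hinf
  have hne : ∀ n, P n ≠ 0 := by
    intro n h0
    have := hω.pos n
    rw [← hPn n, h0, ContinuousLinearMap.opNorm_zero] at this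
    exact lt_irrefl _ this
  have hS : ({n : ℕ | ω (m + n) = ω m * ω n} \ {0}).Infinite := Set.Infinite.sdiff hinf (Set.finite_singleton 0)
  obtain ⟨r, hr, hrn⟩ := ext_exists (P m)
  obtain ⟨k, hk⟩ := nonvanish hT.approx (P m) r hr (hne m)
  apply hk
  rw [← norm_eq_zero]
  refine hT.limit ω hω _ hS m _ (Real.exp k) (norm_nonneg _) ?_ hm (Real.exp_pos _).le
  rintro n ⟨hn, hn0⟩
  have hn1 : 1 ≤ n := Nat.one_le_iff_ne_zero.2 hn0
  obtain ⟨q, hq, hqn⟩ := ext_exists (P n)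
  have hnorm : ‖conv (P m) (P n)‖ = ‖P m‖ * ‖P n‖ := by
    rw [← hP, hPn, hPn, hPn]; exact hn
  have hρ := actL_pow P hP m hm
  have hτ := actL_pow P hP n hn1
  have hπ := actL_pow P hP (m * n) (Nat.mul_pos hm hn1)
  have hw := hT.wronskian (P m) (P n) r q hr hq hrn hqn m n
    (fun φ => trunc_identity hT.approx (P 1) (P m) (P n) m n hρ hτ φ) ex_apply hnorm
  obtain ⟨c, hc⟩ := hT.analytic (fun z => r (ex z)) (fun z => q (ex z)) (fun z => r (X * ex z))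
    (fun z => q (X * ex z)) (ex_hasDeriv r) (ex_hasDeriv q) m n hw
    ⟨_, hk⟩ (by obtain ⟨j, hj⟩ := nonvanish hT.approx (P n) q hq (hne n); exact ⟨_, hj⟩)
  have hc1 := const_one hT.approx (P 1) (P m) (P n) (P (m * n)) m n hρ hτ hπ (hne _) r q hr hq c hc
  have h1 : ‖r (ex k)‖ ^ n = ‖q (ex k)‖ ^ m := by
    have h2 := hc k
    rw [hc1, one_mul] at h2
    have h3 := congrArg norm h2
    simp only [norm_pow] at h3
    exact h3.symm
  rw [h1]
  refine pow_le_pow_left₀ (norm_nonneg _) ?_ m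
  calc ‖q (ex k)‖ ≤ ‖q‖ * ‖ex k‖ := q.le_opNorm _
    _ ≤ ω n * Real.exp k := by
      rw [hqn, hPn]
      exact mul_le_mul_of_nonneg_left (norm_ex_le k) (hω.pos n).le

end Pool.Agent.H674.RW
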