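import Pool.Agent.H674.RW.Defs

set_option autoImplicit false
noncomputable section
open Filter Topology unitInterval BoundedContinuousFunction

namespace Pool.Agent.H674.RW

/-- The section `t ↦ f (s, t)`. -/
def sec (f : C(I × I, ℂ)) (s : I) : I →ᵇ ℂ :=
  BoundedContinuousFunction.mkOfCompact ⟨fun t => f (s, t), f.continuous.comp (Continuous.prodMk_right s)⟩

theorem sec_apply (f : C(I × I, ℂ)) (s t : I) : sec f s t = f (s, t) := rfl

theorem continuous_sec (f : C(I × I, ℂ)) : Continuous fun s => sec f s :=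
  (ContinuousMap.isometryEquivBoundedOfCompact I ℂ).continuous.comp (ContinuousMap.curry f).continuous

/-- `∫∫ f d q d r`. -/
def BB (r q : (I →ᵇ ℂ) →L[ℂ] ℂ) (f : C(I × I, ℂ)) : ℂ :=
  r (BoundedContinuousFunction.mkOfCompact ⟨fun s => q (sec f s), q.continuous.comp (continuous_sec f)⟩)

theorem BB_add (r q : (I →ᵇ ℂ) →L[ℂ] ℂ) (f g : C(I × I, ℂ)) : BB r q (f + g) = BB r q f + BB r q g := by
  unfold BB
  rw [← map_add]
  congr 1
  ext s
  show q (sec (f + g) s) = q (sec f s) + q (sec g s)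
  rw [← map_add]; rfl

theorem BB_smul (r q : (I →ᵇ ℂ) →L[ℂ] ℂ) (c : ℂ) (f : C(I × I, ℂ)) : BB r q (c • f) = c * BB r q f := by
  unfold BB
  rw [← smul_eq_mul, ← map_smul]
  congr 1
  ext s
  show q (sec (c • f) s) = c • q (sec f s)
  rw [← map_smul]; rfl

theorem BB_le (r q : (I →ᵇ ℂ) →L[ℂ] ℂ) (f : C(I × I, ℂ)) (C : ℝ) (hC : 0 ≤ C) (h : ∀ p, ‖f p‖ ≤ C) :
    ‖BB r q f‖ ≤ ‖r‖ * (‖q‖ * C) := by
  unfold BB
  refine (r.le_opNorm _).trans (mul_le_mul_of_nonneg_left ?_ (norm_nonneg _))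
  rw [BoundedContinuousFunction.norm_le (by positivity)]
  intro s
  refine (q.le_opNorm _).trans (mul_le_mul_of_nonneg_left ?_ (norm_nonneg _))
  rw [BoundedContinuousFunction.norm_le hC]
  intro t
  exact h _

theorem BB_prod (r q : (I →ᵇ ℂ) →L[ℂ] ℂ) (f : C(I × I, ℂ)) (a b : I →ᵇ ℂ)
    (h : ∀ s t, f (s, t) = a s * b t) : BB r q f = r a * q b := by
  unfold BB
  rw [mul_comm (r a), ← smul_eq_mul, ← map_smul]
  congr 1
  ext s
  show q (sec f s) = q b * a s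
  have : sec f s = a s • b := by
    ext t
    rw [sec_apply, h]; rfl
  rw [this, map_smul, smul_eq_mul, mul_comm]

/-- if the sections are in `E` -/
theorem BB_eq (ρ _τ : M) (r q : (I →ᵇ ℂ) →L[ℂ] ℂ) (hr : ∀ φ : E, r φ.1 = ρ φ) (f : C(I × I, ℂ)) (g : E)
    (h : ∀ s, q (sec f s) = g.1 s) : BB r q f = ρ g := by
  rw [← hr]
  unfold BB
  congr 1
  ext s
  exact h s

theorem main_bound (ρ τ : M) (r q : (I →ᵇ ℂ) →L[ℂ] ℂ) (hr : ∀ φ : E, r φ.1 = ρ φ) (hq : ∀ φ : E, q φ.1 = τ φ)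
    (hrn : ‖r‖ = ‖ρ‖) (hqn : ‖q‖ = ‖τ‖) (m n : ℕ)
    (hid : ∀ φ : E, (n : ℂ) * ρ (Q (act τ φ)) = m * ρ (act τ (Q φ) - Q (act τ φ)))
    (hex : ∀ (z : ℂ) (t : I), ex z t = Complex.exp (z * (t : ℝ)))
    (hnorm : ‖conv ρ τ‖ = ‖ρ‖ * ‖τ‖) (z : ℂ) (G : C(I × I, ℂ))
    (hG : ∀ s t : I, G (s, t) = ((n : ℂ) * ((s : ℝ) : ℂ) - m * ((t : ℝ) : ℂ)) * (ex z s * ex z t))
    (L : ℝ) (hL : 0 < L) (hGL : ∀ p, ‖G p‖ ≤ L) (δ : ℝ) (hδ : 0 < δ) :
    ‖BB r q G‖ ≤ L * δ * (‖ρ‖ * ‖τ‖ + 1) := by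
  obtain ⟨φ₀, hφ₀, hφ₀'⟩ := (conv ρ τ).exists_lt_apply_of_lt_opNorm (r := ‖conv ρ τ‖ - δ) (by linarith)
  rw [hnorm] at hφ₀'
  have hcont : ContinuousAt φ₀.1 1 := φ₀.1.continuous.continuousAt
  rw [Metric.continuousAt_iff] at hcont
  obtain ⟨ε, hε, hε'⟩ := hcont δ hδ
  have hφ01 : φ₀.1 1 = 0 := φ₀.2
  set η : ℝ := ε / 2 with hη
  have hη0 : 0 < η := by positivity
  have hsmall : ∀ x : I, 1 - η < (x : ℝ) → ‖φ₀.1 x‖ ≤ δ := by
    intro x hx
    have := hε' (x := x) (by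
      rw [Subtype.dist_eq, Real.dist_eq, abs_lt]
      constructor
      · show -ε < (x : ℝ) - 1
        linarith
      · show (x : ℝ) - 1 < ε
        have := x.2.2
        linarith)
    rw [hφ01, dist_zero_right] at this
    exact this.le
  -- the cut-off
  let θ : C(I, ℝ) := ⟨fun x => min 1 ((1 - (x : ℝ)) / η), by fun_prop⟩
  have hθ : ∀ x : I, θ x = min 1 ((1 - (x : ℝ)) / η) := fun _ => rfl
  have hθ1 : θ 1 = 0 := by
    rw [hθ]; simp
  have hθ0 : ∀ x : I, 0 ≤ θ x := by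
    intro x
    rw [hθ]
    have := x.2.2
    exact le_min zero_le_one (div_nonneg (by linarith) hη0.le)
  have hθle : ∀ x : I, θ x ≤ 1 := fun x => min_le_left _ _
  have hθ2 : ∀ x : I, (x : ℝ) ≤ 1 - η → θ x = 1 := by
    intro x hx
    rw [hθ]
    apply min_eq_left
    rw [le_div_iff₀ hη0]; linarith
  let φ : E := ⟨BoundedContinuousFunction.mkOfCompact ⟨fun x => ex z x * ((θ x : ℝ) : ℂ), by fun_prop⟩, by
    show ex z 1 * ((θ 1 : ℝ) : ℂ) = 0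
    rw [hθ1]; simp⟩
  have hφ : ∀ x : I, φ.1 x = ex z x * ((θ x : ℝ) : ℂ) := fun _ => rfl
  -- key identity
  have hkey : ∀ s t : I, G (s, t) * ((θ (plus s t) : ℝ) : ℂ)
      = ((n : ℂ) * ((s : ℝ) : ℂ) - m * ((t : ℝ) : ℂ)) * φ.1 (plus s t) := by
    intro s t
    rcases le_total 1 ((s : ℝ) + t) with h | h
    · have : plus s t = 1 := by
        apply Subtype.ext
        rw [plus_coe]; exact min_eq_right h
      rw [this, hφ, hθ1]; simp
    · have h1 : ((plus s t : I) : ℝ) = s + t := by rw [plus_coe]; exact min_eq_left h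
      rw [hG, hφ, hex, hex, hex, h1, ← Complex.exp_add]
      push_cast
      ring_nf
  have hcp : Continuous fun p : I × I => φ.1 (plus p.1 p.2) := φ.1.continuous.comp continuous_plus
  have hcp0 : Continuous fun p : I × I => φ₀.1 (plus p.1 p.2) := φ₀.1.continuous.comp continuous_plus
  have hcθ : Continuous fun p : I × I => ((θ (plus p.1 p.2) : ℝ) : ℂ) :=
    Complex.continuous_ofReal.comp (θ.continuous.comp continuous_plus)
  let f1 : C(I × I, ℂ) := ⟨fun p => ((p.1 : ℝ) : ℂ) * φ.1 (plus p.1 p.2),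
    (Complex.continuous_ofReal.comp (continuous_subtype_val.comp continuous_fst)).mul hcp⟩
  let f2 : C(I × I, ℂ) := ⟨fun p => ((p.2 : ℝ) : ℂ) * φ.1 (plus p.1 p.2),
    (Complex.continuous_ofReal.comp (continuous_subtype_val.comp continuous_snd)).mul hcp⟩
  let f0 : C(I × I, ℂ) := ⟨fun p => φ₀.1 (plus p.1 p.2), hcp0⟩
  let Gθ : C(I × I, ℂ) := ⟨fun p => G p * ((θ (plus p.1 p.2) : ℝ) : ℂ), G.continuous.mul hcθ⟩
  let Gc : C(I × I, ℂ) := ⟨fun p => G p * (1 - ((θ (plus p.1 p.2) : ℝ) : ℂ)),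
    G.continuous.mul (continuous_const.sub hcθ)⟩
  have hb1 : BB r q f1 = ρ (Q (act τ φ)) := by
    apply BB_eq ρ τ r q hr
    intro s
    rw [Q_apply, act_apply, ← hq]
    have : sec f1 s = ((s : ℝ) : ℂ) • (shift s φ).1 := by
      ext t; rfl
    rw [this, map_smul, smul_eq_mul]
  have hb2 : BB r q f2 = ρ (act τ (Q φ) - Q (act τ φ)) := by
    apply BB_eq ρ τ r q hr
    intro s
    show q (sec f2 s) = (act τ (Q φ)).1 s - (Q (act τ φ)).1 s
    rw [Q_apply, act_apply, act_apply, ← hq, ← hq, ← smul_eq_mul, ← map_smul, ← map_sub]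
    congr 1
    ext t
    show ((t : ℝ) : ℂ) * φ.1 (plus s t)
      = ((plus s t : ℝ) : ℂ) * φ.1 (plus s t) - ((s : ℝ) : ℂ) * φ.1 (plus s t)
    rcases le_total 1 ((s : ℝ) + t) with h | h
    · have : plus s t = 1 := by
        apply Subtype.ext
        rw [plus_coe]; exact min_eq_right h
      rw [this, φ.2]; simp
    · have h1 : ((plus s t : I) : ℝ) = s + t := by rw [plus_coe]; exact min_eq_left h
      rw [h1]; push_cast; ring
  have hb0 : BB r q f0 = conv ρ τ φ₀ := by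
    rw [conv_apply]
    apply BB_eq ρ τ r q hr
    intro s
    rw [act_apply, ← hq]
    rfl
  have hGθ : Gθ = (n : ℂ) • f1 + (-(m : ℂ)) • f2 := by
    ext ⟨s, t⟩
    show G (s, t) * ((θ (plus s t) : ℝ) : ℂ) = (n : ℂ) * (((s : ℝ) : ℂ) * φ.1 (plus s t))
      + (-(m : ℂ)) * (((t : ℝ) : ℂ) * φ.1 (plus s t))
    rw [hkey]; ring
  have hbθ : BB r q Gθ = 0 := by
    rw [hGθ, BB_add, BB_smul, BB_smul, hb1, hb2, hid φ]; ring
  have hsplit : G = Gθ + Gc := by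
    ext ⟨s, t⟩
    show G (s, t) = G (s, t) * ((θ (plus s t) : ℝ) : ℂ) + G (s, t) * (1 - ((θ (plus s t) : ℝ) : ℂ))
    ring
  have hbG : BB r q G = BB r q Gc := by
    conv_lhs => rw [hsplit]
    rw [BB_add, hbθ, zero_add]
  rw [hbG]
  obtain ⟨u1, hu1, hu1'⟩ := RCLike.exists_norm_eq_mul_self (BB r q f0)
  obtain ⟨u2, hu2, hu2'⟩ := RCLike.exists_norm_eq_mul_self (BB r q Gc)
  have hfin := BB_le r q (u1 • f0 + (u2 * ((L⁻¹ : ℝ) : ℂ)) • Gc) (1 + δ) (by positivity) (by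
    rintro ⟨s, t⟩
    show ‖u1 * φ₀.1 (plus s t)
      + (u2 * ((L⁻¹ : ℝ) : ℂ)) * (G (s, t) * (1 - ((θ (plus s t) : ℝ) : ℂ)))‖ ≤ 1 + δ
    have hn2 : ‖(u2 * ((L⁻¹ : ℝ) : ℂ)) * (G (s, t) * (1 - ((θ (plus s t) : ℝ) : ℂ)))‖
        ≤ 1 - θ (plus s t) := by
      have h1 : ‖(1 - ((θ (plus s t) : ℝ) : ℂ))‖ = 1 - θ (plus s t) := by
        rw [← Complex.ofReal_one, ← Complex.ofReal_sub, Complex.norm_real, Real.norm_eq_abs,
          abs_of_nonneg (by linarith [hθle (plus s t)])]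
      have h2 : ‖((L⁻¹ : ℝ) : ℂ)‖ = L⁻¹ := by
        rw [Complex.norm_real, Real.norm_eq_abs, abs_of_pos (inv_pos.2 hL)]
      rw [norm_mul, norm_mul, norm_mul, hu2, h1, h2, one_mul, ← mul_assoc]
      have h3 : L⁻¹ * ‖G (s, t)‖ ≤ 1 := by
        rw [inv_mul_le_iff₀ hL]; linarith [hGL (s, t)]
      have h4 : 0 ≤ 1 - θ (plus s t) := by linarith [hθle (plus s t)]
      nlinarith
    refine (norm_add_le _ _).trans ?_
    rw [norm_mul, hu1, one_mul]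
    by_cases hx : ((plus s t : I) : ℝ) ≤ 1 - η
    · have h6 := hθ2 _ hx
      have h5 : ‖φ₀.1 (plus s t)‖ ≤ 1 := (φ₀.1.norm_coe_le_norm _).trans hφ₀.le
      linarith
    · have h5 := hsmall (plus s t) (not_le.1 hx)
      have := hθ0 (plus s t)
      linarith)
  have hval : BB r q (u1 • f0 + (u2 * ((L⁻¹ : ℝ) : ℂ)) • Gc)
      = ((‖BB r q f0‖ + L⁻¹ * ‖BB r q Gc‖ : ℝ) : ℂ) := by
    rw [BB_add, BB_smul, BB_smul]
    push_cast
    have e1 : ((‖BB r q f0‖ : ℝ) : ℂ) = u1 * BB r q f0 := hu1'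
    have e2 : ((‖BB r q Gc‖ : ℝ) : ℂ) = u2 * BB r q Gc := hu2'
    rw [e1, e2]; ring
  rw [hval, Complex.norm_real, Real.norm_eq_abs, abs_of_nonneg (by positivity), hrn, hqn, hb0] at hfin
  have hfin2 : L⁻¹ * ‖BB r q Gc‖ ≤ δ * (‖ρ‖ * ‖τ‖ + 1) := by
    nlinarith
  rw [inv_mul_le_iff₀ hL] at hfin2
  linarith [hfin2]

/-- Job RW-2 -/
theorem wronskian (ρ τ : M) (r q : (I →ᵇ ℂ) →L[ℂ] ℂ) (hr : ∀ φ : E, r φ.1 = ρ φ) (hq : ∀ φ : E, q φ.1 = τ φ)
    (hrn : ‖r‖ = ‖ρ‖) (hqn : ‖q‖ = ‖τ‖) (m n : ℕ)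
    (hid : ∀ φ : E, (n : ℂ) * ρ (Q (act τ φ)) = m * ρ (act τ (Q φ) - Q (act τ φ)))
    (hex : ∀ (z : ℂ) (t : I), ex z t = Complex.exp (z * (t : ℝ)))
    (hnorm : ‖conv ρ τ‖ = ‖ρ‖ * ‖τ‖) (z : ℂ) :
    (n : ℂ) * r (X * ex z) * q (ex z) = m * r (ex z) * q (X * ex z) := by
  have hce : Continuous fun p : I × I => ex z p.1 * ex z p.2 :=
    ((ex z).continuous.comp continuous_fst).mul ((ex z).continuous.comp continuous_snd)
  let G1 : C(I × I, ℂ) := ⟨fun p => (X * ex z) p.1 * ex z p.2,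
    ((X * ex z).continuous.comp continuous_fst).mul ((ex z).continuous.comp continuous_snd)⟩
  let G2 : C(I × I, ℂ) := ⟨fun p => ex z p.1 * (X * ex z) p.2,
    ((ex z).continuous.comp continuous_fst).mul ((X * ex z).continuous.comp continuous_snd)⟩
  have h1 : BB r q G1 = r (X * ex z) * q (ex z) := BB_prod r q G1 _ _ fun s t => rfl
  have h2 : BB r q G2 = r (ex z) * q (X * ex z) := BB_prod r q G2 _ _ fun s t => rfl
  set G : C(I × I, ℂ) := (n : ℂ) • G1 + (-(m : ℂ)) • G2 with hGdef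
  have hG : ∀ s t : I, G (s, t) = ((n : ℂ) * ((s : ℝ) : ℂ) - m * ((t : ℝ) : ℂ)) * (ex z s * ex z t) := by
    intro s t
    show (n : ℂ) * ((((s : ℝ) : ℂ) * ex z s) * ex z t)
      + (-(m : ℂ)) * (ex z s * (((t : ℝ) : ℂ) * ex z t)) = _
    ring
  have hbG : BB r q G = n * (r (X * ex z) * q (ex z)) - m * (r (ex z) * q (X * ex z)) := by
    rw [hGdef, BB_add, BB_smul, BB_smul, h1, h2]; ring
  have hGL : ∀ p, ‖G p‖ ≤ ‖G‖ + 1 := fun p => (G.norm_coe_le_norm p).trans (by linarith)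
  have hL : 0 < ‖G‖ + 1 := by positivity
  have hzero : BB r q G = 0 := by
    by_contra hne
    have hpos : 0 < ‖BB r q G‖ := norm_pos_iff.2 hne
    have hK : 0 < (‖G‖ + 1) * (‖ρ‖ * ‖τ‖ + 1) := by positivity
    have := main_bound ρ τ r q hr hq hrn hqn m n hid hex hnorm z G hG (‖G‖ + 1) hL hGL
      (‖BB r q G‖ / (2 * ((‖G‖ + 1) * (‖ρ‖ * ‖τ‖ + 1)))) (by positivity)
    have h3 : (‖G‖ + 1) * (‖BB r q G‖ / (2 * ((‖G‖ + 1) * (‖ρ‖ * ‖τ‖ + 1)))) * (‖ρ‖ * ‖τ‖ + 1)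
        = ‖BB r q G‖ / 2 := by
      field_simp
    rw [h3] at this
    linarith
  rw [hbG] at hzero
  linear_combination hzero

end Pool.Agent.H674.RW
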