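import Pool.Agent.H674.RW.Main
import Pool.Agent.H674.RW.Wronskian

set_option autoImplicit false
noncomputable section
open Filter Topology unitInterval BoundedContinuousFunction

namespace Pool.Agent.H674.RW

/-- no mass of `|r| × |q|` on `s + t ≥ 1` -/
def NT (r q : (I →ᵇ ℂ) →L[ℂ] ℂ) : Prop :=
  ∀ ε : ℝ, 0 < ε → ∃ η : ℝ, 0 < η ∧ ∀ G : C(I × I, ℂ), (∀ p, ‖G p‖ ≤ 1) →
    (∀ s t : I, (s : ℝ) + t ≤ 1 - η → G (s, t) = 0) → ‖BB r q G‖ ≤ ε

/-- no mass of `|r|` on `t ≥ 1/2` -/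
def HH (r : (I →ᵇ ℂ) →L[ℂ] ℂ) : Prop :=
  ∀ ε : ℝ, 0 < ε → ∃ η : ℝ, 0 < η ∧ ∀ f : I →ᵇ ℂ, (∀ t, ‖f t‖ ≤ 1) →
    (∀ t : I, (t : ℝ) ≤ 1 / 2 - η → f t = 0) → ‖r f‖ ≤ ε

theorem NT_of_norm (ρ τ : M) (r q : (I →ᵇ ℂ) →L[ℂ] ℂ) (hr : ∀ φ : E, r φ.1 = ρ φ) (hq : ∀ φ : E, q φ.1 = τ φ)
    (hrn : ‖r‖ = ‖ρ‖) (hqn : ‖q‖ = ‖τ‖) (hnorm : ‖conv ρ τ‖ = ‖ρ‖ * ‖τ‖) : NT r q := by
  intro ε₀ hε₀
  have hK : 0 < ‖ρ‖ * ‖τ‖ + 1 := by positivity
  set δ : ℝ := ε₀ / (‖ρ‖ * ‖τ‖ + 1) with hδdef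
  have hδ : 0 < δ := by positivity
  obtain ⟨φ₀, hφ₀, hφ₀'⟩ := (conv ρ τ).exists_lt_apply_of_lt_opNorm (r := ‖conv ρ τ‖ - δ) (by linarith)
  rw [hnorm] at hφ₀'
  have hcont : ContinuousAt φ₀.1 1 := φ₀.1.continuous.continuousAt
  rw [Metric.continuousAt_iff] at hcont
  obtain ⟨ε, hε, hε'⟩ := hcont δ hδ
  have hφ01 : φ₀.1 1 = 0 := φ₀.2
  set η : ℝ := ε / 2 with hη
  have hη0 : 0 < η := by positivity
  have hsmall : ∀ x : I, 1 - η < (x : ℝ) → ‖φ₀.1 x‖ ≤ δ := by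
    intro x hx
    have := hε' (x := x) (by
      rw [Subtype.dist_eq, Real.dist_eq, abs_lt]
      constructor
      · show -ε < (x : ℝ) - 1
        linarith
      · show (x : ℝ) - 1 < ε
        have := x.2.2
        linarith)
    rw [hφ01, dist_zero_right] at this
    exact this.le
  refine ⟨η, hη0, fun G hG1 hG0 => ?_⟩
  have hcp0 : Continuous fun p : I × I => φ₀.1 (plus p.1 p.2) := φ₀.1.continuous.comp continuous_plus
  let f0 : C(I × I, ℂ) := ⟨fun p => φ₀.1 (plus p.1 p.2), hcp0⟩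
  have hb0 : BB r q f0 = conv ρ τ φ₀ := by
    rw [conv_apply]
    apply BB_eq ρ τ r q hr
    intro s
    rw [act_apply, ← hq]
    rfl
  obtain ⟨u1, hu1, hu1'⟩ := RCLike.exists_norm_eq_mul_self (BB r q f0)
  obtain ⟨u2, hu2, hu2'⟩ := RCLike.exists_norm_eq_mul_self (BB r q G)
  have hfin := BB_le r q (u1 • f0 + u2 • G) (1 + δ) (by positivity) (by
    rintro ⟨s, t⟩
    show ‖u1 * φ₀.1 (plus s t) + u2 * G (s, t)‖ ≤ 1 + δ
    refine (norm_add_le _ _).trans ?_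
    rw [norm_mul, norm_mul, hu1, hu2, one_mul, one_mul]
    by_cases hx : (s : ℝ) + t ≤ 1 - η
    · rw [hG0 s t hx, norm_zero]
      have h5 : ‖φ₀.1 (plus s t)‖ ≤ 1 := (φ₀.1.norm_coe_le_norm _).trans hφ₀.le
      linarith
    · have h5 := hsmall (plus s t) (by
        rw [plus_coe]
        exact lt_min (not_le.1 hx) (by linarith))
      have := hG1 (s, t)
      linarith)
  have hval : BB r q (u1 • f0 + u2 • G) = ((‖BB r q f0‖ + ‖BB r q G‖ : ℝ) : ℂ) := by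
    rw [BB_add, BB_smul, BB_smul]
    push_cast
    have e1 : ((‖BB r q f0‖ : ℝ) : ℂ) = u1 * BB r q f0 := hu1'
    have e2 : ((‖BB r q G‖ : ℝ) : ℂ) = u2 * BB r q G := hu2'
    rw [e1, e2]
  rw [hval, Complex.norm_real, Real.norm_eq_abs, abs_of_nonneg (by positivity), hrn, hqn, hb0] at hfin
  have h9 : ‖BB r q G‖ ≤ δ * (‖ρ‖ * ‖τ‖ + 1) := by nlinarith
  rwa [hδdef, div_mul_cancel₀ _ hK.ne'] at h9

theorem HH_or_HH (r q : (I →ᵇ ℂ) →L[ℂ] ℂ) (h : NT r q) : HH r ∨ HH q := by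
  by_contra hcon
  rw [not_or] at hcon
  obtain ⟨h1, h2⟩ := hcon
  unfold HH at h1 h2
  push Not at h1 h2
  obtain ⟨ε1, hε1, h1⟩ := h1
  obtain ⟨ε2, hε2, h2⟩ := h2
  obtain ⟨η, hη, hNT⟩ := h (ε1 * ε2) (by positivity)
  obtain ⟨f, hf1, hf0, hf⟩ := h1 (η / 2) (by positivity)
  obtain ⟨g, hg1, hg0, hg⟩ := h2 (η / 2) (by positivity)
  let G : C(I × I, ℂ) := ⟨fun p => f p.1 * g p.2,
    (f.continuous.comp continuous_fst).mul (g.continuous.comp continuous_snd)⟩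
  have hG : BB r q G = r f * q g := BB_prod r q G f g fun s t => rfl
  have h3 := hNT G (by
    rintro ⟨s, t⟩
    show ‖f s * g t‖ ≤ 1
    rw [norm_mul]
    exact mul_le_one₀ (hf1 s) (norm_nonneg _) (hg1 t)) (by
    intro s t hst
    show f s * g t = 0
    rcases le_total (s : ℝ) (1 / 2 - η / 2) with h | h
    · rw [hf0 s h, zero_mul]
    · rw [hg0 t (by linarith), mul_zero])
  rw [hG, norm_mul] at h3
  have h4 : ε1 * ε2 < ‖r f‖ * ‖q g‖ := mul_lt_mul'' hf hg hε1.le hε2.le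
  exact absurd h3 (not_le.2 h4)

theorem NT_of_HH (r q : (I →ᵇ ℂ) →L[ℂ] ℂ) (h1 : HH r) (h2 : HH q) : NT r q := by
  intro ε hε
  obtain ⟨η1, hη1, h1⟩ := h1 (ε / (2 * (‖q‖ + 1))) (by positivity)
  obtain ⟨η2, hη2, h2⟩ := h2 (ε / (2 * (‖r‖ + 1))) (by positivity)
  refine ⟨η1 / 2, by positivity, fun G hG1 hG0 => ?_⟩
  let c : C(I, ℝ) := ⟨fun s => max 0 (min 1 (((s : ℝ) - (1 / 2 - η1)) / (η1 / 2))), by fun_prop⟩
  have hc : ∀ s : I, c s = max 0 (min 1 (((s : ℝ) - (1 / 2 - η1)) / (η1 / 2))) := fun _ => rfl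
  have hc0 : ∀ s, 0 ≤ c s := fun s => le_max_left _ _
  have hc1 : ∀ s, c s ≤ 1 := fun s => max_le zero_le_one (min_le_left _ _)
  have hcz : ∀ s : I, (s : ℝ) ≤ 1 / 2 - η1 → c s = 0 := by
    intro s hs
    rw [hc]
    apply max_eq_left
    exact (min_le_right _ _).trans (div_nonpos_of_nonpos_of_nonneg (by linarith) (by positivity))
  have hco : ∀ s : I, 1 / 2 - η1 / 2 ≤ (s : ℝ) → c s = 1 := by
    intro s hs
    rw [hc, min_eq_left, max_eq_right zero_le_one]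
    rw [le_div_iff₀ (by positivity)]; linarith
  have hcc : Continuous fun p : I × I => ((c p.1 : ℝ) : ℂ) :=
    Complex.continuous_ofReal.comp (c.continuous.comp continuous_fst)
  let G1 : C(I × I, ℂ) := ⟨fun p => ((c p.1 : ℝ) : ℂ) * G p, hcc.mul G.continuous⟩
  let G2 : C(I × I, ℂ) := ⟨fun p => (1 - ((c p.1 : ℝ) : ℂ)) * G p, (continuous_const.sub hcc).mul G.continuous⟩
  have hsplit : G = G1 + G2 := by
    ext ⟨s, t⟩
    show G (s, t) = ((c s : ℝ) : ℂ) * G (s, t) + (1 - ((c s : ℝ) : ℂ)) * G (s, t)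
    ring
  have hn1 : ∀ s, ‖((c s : ℝ) : ℂ)‖ ≤ 1 := fun s => by
    rw [Complex.norm_real, Real.norm_eq_abs, abs_of_nonneg (hc0 s)]; exact hc1 s
  have hn2 : ∀ s, ‖(1 - ((c s : ℝ) : ℂ))‖ ≤ 1 := fun s => by
    rw [← Complex.ofReal_one, ← Complex.ofReal_sub, Complex.norm_real, Real.norm_eq_abs,
      abs_of_nonneg (by linarith [hc1 s])]; linarith [hc0 s]
  -- first part
  have b1 : ‖BB r q G1‖ ≤ ε / 2 := by
    let F : I →ᵇ ℂ := BoundedContinuousFunction.mkOfCompact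
      ⟨fun s => q (sec G1 s), q.continuous.comp (continuous_sec G1)⟩
    have hF : BB r q G1 = r F := rfl
    have hq1 : 0 < ‖q‖ + 1 := by positivity
    have hFs : ∀ s, ‖F s‖ ≤ ‖q‖ := by
      intro s
      show ‖q (sec G1 s)‖ ≤ ‖q‖
      refine (q.le_opNorm _).trans (mul_le_of_le_one_right (norm_nonneg _) ?_)
      rw [BoundedContinuousFunction.norm_le zero_le_one]
      intro t
      show ‖((c s : ℝ) : ℂ) * G (s, t)‖ ≤ 1
      rw [norm_mul]
      exact mul_le_one₀ (hn1 s) (norm_nonneg _) (hG1 _)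
    have h3 := h1 ((((‖q‖ + 1)⁻¹ : ℝ) : ℂ) • F) (fun t => by
      rw [BoundedContinuousFunction.smul_apply, norm_smul, Complex.norm_real, Real.norm_eq_abs,
        abs_of_pos (inv_pos.2 hq1), inv_mul_le_iff₀ hq1]
      linarith [hFs t]) (fun t ht => by
      have : F t = 0 := by
        show q (sec G1 t) = 0
        have : sec G1 t = 0 := by
          ext u
          show ((c t : ℝ) : ℂ) * G (t, u) = 0
          rw [hcz t ht]; simp
        rw [this, map_zero]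
      rw [BoundedContinuousFunction.smul_apply, this, smul_zero])
    rw [map_smul, norm_smul, Complex.norm_real, Real.norm_eq_abs, abs_of_pos (inv_pos.2 hq1),
      inv_mul_le_iff₀ hq1] at h3
    rw [hF]
    refine h3.trans (le_of_eq ?_)
    field_simp
  have b2 : ‖BB r q G2‖ ≤ ε / 2 := by
    have hr1 : 0 < ‖r‖ + 1 := by positivity
    have h4 : ‖BB r q G2‖ ≤ ‖r‖ * (ε / (2 * (‖r‖ + 1))) := by
      unfold BB
      refine (r.le_opNorm _).trans (mul_le_mul_of_nonneg_left ?_ (norm_nonneg _))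
      rw [BoundedContinuousFunction.norm_le (by positivity)]
      intro s
      refine h2 _ (fun t => ?_) (fun t ht => ?_)
      · show ‖(1 - ((c s : ℝ) : ℂ)) * G (s, t)‖ ≤ 1
        rw [norm_mul]
        exact mul_le_one₀ (hn2 s) (norm_nonneg _) (hG1 _)
      · show (1 - ((c s : ℝ) : ℂ)) * G (s, t) = 0
        rcases le_total (1 / 2 - η1 / 2) (s : ℝ) with h | h
        · rw [hco s h]; simp
        · rw [hG0 s t (by linarith), mul_zero]
    refine h4.trans ?_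
    rw [mul_div_assoc', div_le_div_iff₀ (by positivity) (by positivity)]
    nlinarith [norm_nonneg r]
  rw [hsplit, BB_add]
  exact (norm_add_le _ _).trans (by linarith)

theorem wronskian_NT (ρ τ : M) (r q : (I →ᵇ ℂ) →L[ℂ] ℂ) (hr : ∀ φ : E, r φ.1 = ρ φ) (hq : ∀ φ : E, q φ.1 = τ φ)
    (m n : ℕ) (hid : ∀ φ : E, (n : ℂ) * ρ (Q (act τ φ)) = m * ρ (act τ (Q φ) - Q (act τ φ)))
    (hNT : NT r q) (z : ℂ) :
    (n : ℂ) * r (X * ex z) * q (ex z) = m * r (ex z) * q (X * ex z) := by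
  let G1 : C(I × I, ℂ) := ⟨fun p => (X * ex z) p.1 * ex z p.2,
    ((X * ex z).continuous.comp continuous_fst).mul ((ex z).continuous.comp continuous_snd)⟩
  let G2 : C(I × I, ℂ) := ⟨fun p => ex z p.1 * (X * ex z) p.2,
    ((ex z).continuous.comp continuous_fst).mul ((X * ex z).continuous.comp continuous_snd)⟩
  have h1 : BB r q G1 = r (X * ex z) * q (ex z) := BB_prod r q G1 _ _ fun s t => rfl
  have h2 : BB r q G2 = r (ex z) * q (X * ex z) := BB_prod r q G2 _ _ fun s t => rfl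
  set G : C(I × I, ℂ) := (n : ℂ) • G1 + (-(m : ℂ)) • G2 with hGdef
  have hG : ∀ s t : I, G (s, t) = ((n : ℂ) * ((s : ℝ) : ℂ) - m * ((t : ℝ) : ℂ)) * (ex z s * ex z t) := by
    intro s t
    show (n : ℂ) * ((((s : ℝ) : ℂ) * ex z s) * ex z t)
      + (-(m : ℂ)) * (ex z s * (((t : ℝ) : ℂ) * ex z t)) = _
    ring
  have hbG : BB r q G = n * (r (X * ex z) * q (ex z)) - m * (r (ex z) * q (X * ex z)) := by
    rw [hGdef, BB_add, BB_smul, BB_smul, h1, h2]; ring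
  have hL : 0 < ‖G‖ + 1 := by positivity
  have key : ∀ δ : ℝ, 0 < δ → ‖BB r q G‖ ≤ (‖G‖ + 1) * δ := by
    intro δ hδ
    obtain ⟨η, hη0, hη⟩ := hNT δ hδ
    let θ : C(I, ℝ) := ⟨fun x => min 1 ((1 - (x : ℝ)) / η), by fun_prop⟩
    have hθ : ∀ x : I, θ x = min 1 ((1 - (x : ℝ)) / η) := fun _ => rfl
    have hθ1 : θ 1 = 0 := by
      rw [hθ]; simp
    have hθ0 : ∀ x : I, 0 ≤ θ x := by
      intro x
      rw [hθ]
      have := x.2.2
      exact le_min zero_le_one (div_nonneg (by linarith) hη0.le)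
    have hθle : ∀ x : I, θ x ≤ 1 := fun x => min_le_left _ _
    have hθ2 : ∀ x : I, (x : ℝ) ≤ 1 - η → θ x = 1 := by
      intro x hx
      rw [hθ]
      apply min_eq_left
      rw [le_div_iff₀ hη0]; linarith
    let φ : E := ⟨BoundedContinuousFunction.mkOfCompact ⟨fun x => ex z x * ((θ x : ℝ) : ℂ), by fun_prop⟩, by
      show ex z 1 * ((θ 1 : ℝ) : ℂ) = 0
      rw [hθ1]; simp⟩
    have hφ : ∀ x : I, φ.1 x = ex z x * ((θ x : ℝ) : ℂ) := fun _ => rfl
    have hkey : ∀ s t : I, G (s, t) * ((θ (plus s t) : ℝ) : ℂ)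
        = ((n : ℂ) * ((s : ℝ) : ℂ) - m * ((t : ℝ) : ℂ)) * φ.1 (plus s t) := by
      intro s t
      rcases le_total 1 ((s : ℝ) + t) with h | h
      · have : plus s t = 1 := by
          apply Subtype.ext
          rw [plus_coe]; exact min_eq_right h
        rw [this, hφ, hθ1]; simp
      · have h1 : ((plus s t : I) : ℝ) = s + t := by rw [plus_coe]; exact min_eq_left h
        rw [hG, hφ, ex_apply, ex_apply, ex_apply, h1, ← Complex.exp_add]
        push_cast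
        ring_nf
    have hcp : Continuous fun p : I × I => φ.1 (plus p.1 p.2) := φ.1.continuous.comp continuous_plus
    have hcθ : Continuous fun p : I × I => ((θ (plus p.1 p.2) : ℝ) : ℂ) :=
      Complex.continuous_ofReal.comp (θ.continuous.comp continuous_plus)
    let f1 : C(I × I, ℂ) := ⟨fun p => ((p.1 : ℝ) : ℂ) * φ.1 (plus p.1 p.2),
      (Complex.continuous_ofReal.comp (continuous_subtype_val.comp continuous_fst)).mul hcp⟩
    let f2 : C(I × I, ℂ) := ⟨fun p => ((p.2 : ℝ) : ℂ) * φ.1 (plus p.1 p.2),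
      (Complex.continuous_ofReal.comp (continuous_subtype_val.comp continuous_snd)).mul hcp⟩
    let Gθ : C(I × I, ℂ) := ⟨fun p => G p * ((θ (plus p.1 p.2) : ℝ) : ℂ), G.continuous.mul hcθ⟩
    let Gc : C(I × I, ℂ) := ⟨fun p => ((((‖G‖ + 1)⁻¹ : ℝ) : ℂ)) * (G p * (1 - ((θ (plus p.1 p.2) : ℝ) : ℂ))),
      continuous_const.mul (G.continuous.mul (continuous_const.sub hcθ))⟩
    have hb1 : BB r q f1 = ρ (Q (act τ φ)) := by
      apply BB_eq ρ τ r q hr
      intro s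
      rw [Q_apply, act_apply, ← hq]
      have : sec f1 s = ((s : ℝ) : ℂ) • (shift s φ).1 := by
        ext t; rfl
      rw [this, map_smul, smul_eq_mul]
    have hb2 : BB r q f2 = ρ (act τ (Q φ) - Q (act τ φ)) := by
      apply BB_eq ρ τ r q hr
      intro s
      show q (sec f2 s) = (act τ (Q φ)).1 s - (Q (act τ φ)).1 s
      rw [Q_apply, act_apply, act_apply, ← hq, ← hq, ← smul_eq_mul, ← map_smul, ← map_sub]
      congr 1
      ext t
      show ((t : ℝ) : ℂ) * φ.1 (plus s t)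
        = ((plus s t : ℝ) : ℂ) * φ.1 (plus s t) - ((s : ℝ) : ℂ) * φ.1 (plus s t)
      rcases le_total 1 ((s : ℝ) + t) with h | h
      · have : plus s t = 1 := by
          apply Subtype.ext
          rw [plus_coe]; exact min_eq_right h
        rw [this, φ.2]; simp
      · have h1 : ((plus s t : I) : ℝ) = s + t := by rw [plus_coe]; exact min_eq_left h
        rw [h1]; push_cast; ring
    have hGθ : Gθ = (n : ℂ) • f1 + (-(m : ℂ)) • f2 := by
      ext ⟨s, t⟩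
      show G (s, t) * ((θ (plus s t) : ℝ) : ℂ) = (n : ℂ) * (((s : ℝ) : ℂ) * φ.1 (plus s t))
        + (-(m : ℂ)) * (((t : ℝ) : ℂ) * φ.1 (plus s t))
      rw [hkey]; ring
    have hbθ : BB r q Gθ = 0 := by
      rw [hGθ, BB_add, BB_smul, BB_smul, hb1, hb2, hid φ]; ring
    have hsplit : G = Gθ + (((‖G‖ + 1 : ℝ) : ℂ)) • Gc := by
      ext ⟨s, t⟩
      show G (s, t) = G (s, t) * ((θ (plus s t) : ℝ) : ℂ) + (((‖G‖ + 1 : ℝ) : ℂ)) *
        (((((‖G‖ + 1)⁻¹ : ℝ) : ℂ)) * (G (s, t) * (1 - ((θ (plus s t) : ℝ) : ℂ))))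
      rw [← mul_assoc (((‖G‖ + 1 : ℝ) : ℂ)), ← Complex.ofReal_mul, mul_inv_cancel₀ hL.ne', Complex.ofReal_one]
      ring
    have hbG' : BB r q G = (((‖G‖ + 1 : ℝ) : ℂ)) * BB r q Gc := by
      conv_lhs => rw [hsplit]
      rw [BB_add, hbθ, zero_add, BB_smul]
    rw [hbG', norm_mul, Complex.norm_real, Real.norm_eq_abs, abs_of_pos hL]
    refine mul_le_mul_of_nonneg_left (hη Gc ?_ ?_) hL.le
    · rintro ⟨s, t⟩
      show ‖((((‖G‖ + 1)⁻¹ : ℝ) : ℂ)) * (G (s, t) * (1 - ((θ (plus s t) : ℝ) : ℂ)))‖ ≤ 1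
      have h1 : ‖(1 - ((θ (plus s t) : ℝ) : ℂ))‖ ≤ 1 := by
        rw [← Complex.ofReal_one, ← Complex.ofReal_sub, Complex.norm_real, Real.norm_eq_abs,
          abs_of_nonneg (by linarith [hθle (plus s t)])]
        linarith [hθ0 (plus s t)]
      rw [norm_mul, norm_mul, Complex.norm_real, Real.norm_eq_abs, abs_of_pos (inv_pos.2 hL),
        inv_mul_le_iff₀ hL, mul_one]
      have h3 : ‖G (s, t)‖ ≤ ‖G‖ := G.norm_coe_le_norm _
      calc ‖G (s, t)‖ * ‖(1 - ((θ (plus s t) : ℝ) : ℂ))‖ ≤ ‖G (s, t)‖ * 1 :=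
            mul_le_mul_of_nonneg_left h1 (norm_nonneg _)
        _ ≤ ‖G‖ + 1 := by linarith
    · intro s t hst
      show ((((‖G‖ + 1)⁻¹ : ℝ) : ℂ)) * (G (s, t) * (1 - ((θ (plus s t) : ℝ) : ℂ))) = 0
      rw [hθ2 (plus s t) (by rw [plus_coe]; exact (min_le_left _ _).trans hst)]
      simp
  have hzero : BB r q G = 0 := by
    refine norm_eq_zero.1 (le_antisymm ?_ (norm_nonneg _))
    refine le_of_forall_pos_le_add fun δ hδ => ?_
    refine (key (δ / (‖G‖ + 1)) (by positivity)).trans (le_of_eq ?_)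
    field_simp
    ring
  rw [hbG] at hzero
  linear_combination hzero

end Pool.Agent.H674.RW
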