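import Pool.Agent.H674.RW.Pairs

set_option autoImplicit false
noncomputable section
open Filter Topology unitInterval BoundedContinuousFunction

namespace Pool.Agent.H674.RW

/-- the common end of the two arguments -/
theorem no_infinite (hT : Tools) (ω : ℕ → ℝ) (hω : RadicalWeight ω) (P : ℕ → M) (hPn : ∀ n, ‖P n‖ = ω n)
    (hP : ∀ m n, P (m + n) = conv (P m) (P n))
    (r : ℕ → (I →ᵇ ℂ) →L[ℂ] ℂ) (hr : ∀ n, ∀ φ : E, r n φ.1 = P n φ) (hrn : ∀ n, ‖r n‖ = ‖P n‖)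
    (m : ℕ) (hm : 1 ≤ m) (S : Set ℕ) (hS : S.Infinite) (hS1 : ∀ n ∈ S, 1 ≤ n)
    (hNT : ∀ n ∈ S, NT (r m) (r n)) : False := by
  have hne : ∀ n, P n ≠ 0 := by
    intro n h0
    have := hω.pos n
    rw [← hPn n, h0, ContinuousLinearMap.opNorm_zero] at this
    exact lt_irrefl _ this
  obtain ⟨k, hk⟩ := nonvanish hT.approx (P m) (r m) (hr m) (hne m)
  apply hk
  rw [← norm_eq_zero]
  refine hT.limit ω hω S hS m _ (Real.exp k) (norm_nonneg _) ?_ hm (Real.exp_pos _).le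
  intro n hn
  have hn1 : 1 ≤ n := hS1 n hn
  have hρ := actL_pow P hP m hm
  have hτ := actL_pow P hP n hn1
  have hπ := actL_pow P hP (m * n) (Nat.mul_pos hm hn1)
  have hw := wronskian_NT (P m) (P n) (r m) (r n) (hr m) (hr n) m n
    (fun φ => trunc_identity hT.approx (P 1) (P m) (P n) m n hρ hτ φ) (hNT n hn)
  obtain ⟨c, hc⟩ := hT.analytic (fun z => r m (ex z)) (fun z => r n (ex z)) (fun z => r m (X * ex z))
    (fun z => r n (X * ex z)) (ex_hasDeriv (r m)) (ex_hasDeriv (r n)) m n hw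
    ⟨_, hk⟩ (by obtain ⟨j, hj⟩ := nonvanish hT.approx (P n) (r n) (hr n) (hne n); exact ⟨_, hj⟩)
  have hc1 := const_one hT.approx (P 1) (P m) (P n) (P (m * n)) m n hρ hτ hπ (hne _) (r m) (r n)
    (hr m) (hr n) c hc
  have h1 : ‖r m (ex k)‖ ^ n = ‖r n (ex k)‖ ^ m := by
    have h2 := hc k
    rw [hc1, one_mul] at h2
    have h3 := congrArg norm h2
    simp only [norm_pow] at h3
    exact h3.symm
  rw [h1]
  refine pow_le_pow_left₀ (norm_nonneg _) ?_ m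
  calc ‖r n (ex k)‖ ≤ ‖r n‖ * ‖ex k‖ := (r n).le_opNorm _
    _ ≤ ω n * Real.exp k := by
      rw [hrn, hPn]
      exact mul_le_mul_of_nonneg_left (norm_ex_le k) (hω.pos n).le

theorem pairs_finite (hT : Tools) (ω : ℕ → ℝ) (hω : RadicalWeight ω) (P : ℕ → M) (hPn : ∀ n, ‖P n‖ = ω n)
    (hP : ∀ m n, P (m + n) = conv (P m) (P n)) :
    {p : ℕ × ℕ | 1 ≤ p.1 ∧ 1 ≤ p.2 ∧ ω (p.1 + p.2) = ω p.1 * ω p.2}.Finite := by
  choose r hr hrn using fun n => ext_exists (P n)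
  set S : Set ℕ := {k | 1 ≤ k ∧ HH (r k)} with hSdef
  have hSfin : S.Finite := by
    by_contra hinf
    have hinf' : S.Infinite := hinf
    obtain ⟨k0, hk0⟩ := hinf'.nonempty
    exact no_infinite hT ω hω P hPn hP r hr hrn k0 hk0.1 S hinf' (fun n hn => hn.1)
      (fun n hn => NT_of_HH (r k0) (r n) hk0.2 hn.2)
  have hfin : (⋃ k ∈ S, (fun n => ((k, n) : ℕ × ℕ)) '' {n : ℕ | ω (k + n) = ω k * ω n} ∪
      (fun n => ((n, k) : ℕ × ℕ)) '' {n : ℕ | ω (k + n) = ω k * ω n}).Finite := by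
    refine hSfin.biUnion fun k hk => ?_
    have h1 := finite_of_tools hT ω hω P hPn hP k hk.1
    exact (h1.image _).union (h1.image _)
  refine hfin.subset ?_
  rintro ⟨m, n⟩ ⟨hm, hn, h⟩
  have hnorm : ‖conv (P m) (P n)‖ = ‖P m‖ * ‖P n‖ := by
    rw [← hP, hPn, hPn, hPn]; exact h
  have hNT := NT_of_norm (P m) (P n) (r m) (r n) (hr m) (hr n) (hrn m) (hrn n) hnorm
  rcases HH_or_HH (r m) (r n) hNT with h1 | h1
  · refine Set.mem_biUnion (show m ∈ S from ⟨hm, h1⟩) (Or.inl ⟨n, h, rfl⟩)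
  · refine Set.mem_biUnion (show n ∈ S from ⟨hn, h1⟩) (Or.inr ⟨m, ?_, rfl⟩)
    show ω (n + m) = ω n * ω m
    rw [add_comm, mul_comm]; exact h

end Pool.Agent.H674.RW
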