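import Pool.Agent.H674.RW.Defs

set_option autoImplicit false
noncomputable section
open Filter Topology unitInterval BoundedContinuousFunction

namespace Pool.Agent.H674.RW

theorem powers_single_mem (ω : ℕ → ℝ) (n : ℕ) : (Pi.single n 1 : ℕ → ℂ) ∈ L1 ω := by
  show Summable fun k => ‖(Pi.single n 1 : ℕ → ℂ) k‖ * ω k
  apply summable_of_ne_finset_zero (s := {n})
  intro k hk
  rw [Finset.mem_singleton] at hk
  rw [Pi.single_eq_of_ne hk, norm_zero, zero_mul]

theorem powers_cauchy (m n : ℕ) :
    (fun k => ∑ j ∈ Finset.range (k + 1), (Pi.single m 1 : ℕ → ℂ) j *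
      (Pi.single n 1 : ℕ → ℂ) (k - j)) = Pi.single (m + n) 1 := by
  funext k
  by_cases hk : k = m + n
  · subst hk
    rw [Pi.single_eq_same, Finset.sum_eq_single m]
    · rw [Pi.single_eq_same, Nat.add_sub_cancel_left, Pi.single_eq_same, one_mul]
    · intro j _ hj
      rw [Pi.single_eq_of_ne hj, zero_mul]
    · intro h
      exact absurd (Finset.mem_range.mpr (by omega)) h
  · rw [Pi.single_eq_of_ne hk]
    apply Finset.sum_eq_zero
    intro j hj
    rw [Finset.mem_range] at hj
    by_cases hjm : j = m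
    · subst hjm
      rw [Pi.single_eq_of_ne (i := n) (i' := k - j) (by omega), mul_zero]
    · rw [Pi.single_eq_of_ne hjm, zero_mul]

/-- Job RW-6 -/
theorem powers (ω : ℕ → ℝ) (hω : RadicalWeight ω) (T : (ℕ → ℂ) → M) (hT : IsometricIso ω T) :
    ∃ P : ℕ → M, (∀ n, ‖P n‖ = ω n) ∧ ∀ m n, P (m + n) = conv (P m) (P n) := by
  have _ := hω
  refine ⟨fun n => T (Pi.single n 1), fun n => ?_, fun m n => ?_⟩
  · rw [hT.norm _ (powers_single_mem ω n), tsum_eq_single n]
    · rw [Pi.single_eq_same, norm_one, one_mul]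
    · intro k hk
      rw [Pi.single_eq_of_ne hk, norm_zero, zero_mul]
  · show T (Pi.single (m + n) 1) = conv (T (Pi.single m 1)) (T (Pi.single n 1))
    rw [← hT.mul _ (powers_single_mem ω m) _ (powers_single_mem ω n), powers_cauchy]

end Pool.Agent.H674.RW
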